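import Pool.Agent.Helper96.VW.Defs

/-!
Calculus of wreath recursions.
-/

namespace Pool.Agent.Helper96.VW
namespace WreathRec

variable {X G : Type*} [Group G] (R : WreathRec X G)

@[simp] theorem sec_one (x : X) : R.sec 1 x = 1 := by
  have h := R.sec_mul 1 1 x
  simp only [mul_one, map_one, Equiv.Perm.coe_one, id_eq] at h
  exact (mul_eq_left.mp h.symm)

@[simp] theorem actW_nil (g : G) : R.actW g [] = [] := by simp [actW]
@[simp] theorem actW_cons (g : G) (x : X) (w : List X) :
    R.actW g (x :: w) = R.act g x :: R.actW (R.sec g x) w := by simp [actW]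
@[simp] theorem secW_nil (g : G) : R.secW g [] = g := by simp [secW]
@[simp] theorem secW_cons (g : G) (x : X) (w : List X) :
    R.secW g (x :: w) = R.secW (R.sec g x) w := by simp [secW]

@[simp] theorem actW_length (g : G) (w : List X) : (R.actW g w).length = w.length := by
  induction w generalizing g with
  | nil => simp
  | cons x w ih => simp [ih]

theorem actW_append (g : G) (v w : List X) :
    R.actW g (v ++ w) = R.actW g v ++ R.actW (R.secW g v) w := by
  induction v generalizing g with
  | nil => simp
  | cons x v ih => simp [ih]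

theorem secW_append (g : G) (v w : List X) :
    R.secW g (v ++ w) = R.secW (R.secW g v) w := by
  induction v generalizing g with
  | nil => simp
  | cons x v ih => simp [ih]

theorem actW_mul (g h : G) (w : List X) : R.actW (g * h) w = R.actW g (R.actW h w) := by
  induction w generalizing g h with
  | nil => simp
  | cons x w ih => simp [ih, R.sec_mul]

theorem secW_mul (g h : G) (w : List X) :
    R.secW (g * h) w = R.secW g (R.actW h w) * R.secW h w := by
  induction w generalizing g h with
  | nil => simp
  | cons x w ih => simp [ih, R.sec_mul]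

@[simp] theorem actW_one (w : List X) : R.actW 1 w = w := by
  induction w with
  | nil => simp
  | cons x w ih => simp [ih]

@[simp] theorem secW_one (w : List X) : R.secW 1 w = 1 := by
  induction w with
  | nil => simp
  | cons x w ih => simp [ih]

theorem actW_inv_actW (g : G) (w : List X) : R.actW g⁻¹ (R.actW g w) = w := by
  rw [← actW_mul]; simp

theorem actW_actW_inv (g : G) (w : List X) : R.actW g (R.actW g⁻¹ w) = w := by
  rw [← actW_mul]; simp

theorem secW_inv (g : G) (w : List X) : R.secW g⁻¹ w = (R.secW g (R.actW g⁻¹ w))⁻¹ := by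
  have h := R.secW_mul g g⁻¹ w
  rw [mul_inv_cancel, secW_one] at h
  exact eq_inv_of_mul_eq_one_right h.symm

theorem actW_injective (g : G) : Function.Injective (R.actW g) := by
  intro v w h
  have := congrArg (R.actW g⁻¹) h
  rwa [actW_inv_actW, actW_inv_actW] at this

variable {R}

/-- An element acting trivially on level `n` with trivial sections there is trivial. -/
theorem Faithful.eq_one (hF : R.Faithful) {n : ℕ} {g : G}
    (h : ∀ w : List X, w.length = n → R.actW g w = w ∧ R.secW g w = 1) : g = 1 := by
  apply hF
  intro w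
  by_cases hX : Nonempty X
  · obtain ⟨x⟩ := hX
    by_cases hw : n ≤ w.length
    · have h1 := h (w.take n) (by simp [hw])
      calc R.actW g w = R.actW g (w.take n ++ w.drop n) := by rw [List.take_append_drop]
        _ = w.take n ++ w.drop n := by rw [actW_append, h1.1, h1.2, actW_one]
        _ = w := List.take_append_drop n w
    · have h1 := (h (w ++ List.replicate (n - w.length) x) (by simp; omega)).1
      rw [actW_append] at h1
      exact (List.append_inj h1 (by simp)).1
  · cases w with
    | nil => simp
    | cons x w => exact absurd ⟨x⟩ hX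

theorem Faithful.ext (hF : R.Faithful) {n : ℕ} {g h : G}
    (H : ∀ w : List X, w.length = n → R.actW g w = R.actW h w ∧ R.secW g w = R.secW h w) :
    g = h := by
  have : g⁻¹ * h = 1 := by
    apply hF.eq_one (n := n)
    intro w hw
    have h1 := H w hw
    constructor
    · rw [actW_mul, ← h1.1, actW_inv_actW]
    · rw [secW_mul, secW_inv, ← h1.1, actW_inv_actW, h1.2]
      simp
  rw [inv_mul_eq_one] at this
  exact this

variable (R)

/-- Elements acting trivially on level `n` with all level `n` sections in `S`. -/
def levelSub (n : ℕ) (S : Subgroup G) : Subgroup G where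
  carrier := {g | ∀ w : List X, w.length = n → R.actW g w = w ∧ R.secW g w ∈ S}
  one_mem' := by intro w _; simp [S.one_mem]
  mul_mem' := by
    intro g h hg hh w hw
    have h1 := hg w hw
    have h2 := hh w hw
    refine ⟨by rw [actW_mul, h2.1, h1.1], ?_⟩
    rw [secW_mul, h2.1]
    exact S.mul_mem h1.2 h2.2
  inv_mem' := by
    intro g hg w hw
    have h1 := hg w hw
    have h2 : R.actW g⁻¹ w = w := by
      have := congrArg (R.actW g⁻¹) h1.1
      rw [actW_inv_actW] at this
      exact this.symm
    refine ⟨h2, ?_⟩
    rw [secW_inv, h2]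
    exact S.inv_mem h1.2

theorem mem_levelSub {n : ℕ} {S : Subgroup G} {g : G} :
    g ∈ R.levelSub n S ↔ ∀ w : List X, w.length = n → R.actW g w = w ∧ R.secW g w ∈ S :=
  Iff.rfl

theorem levelSub_mono {n : ℕ} {S T : Subgroup G} (h : S ≤ T) :
    R.levelSub n S ≤ R.levelSub n T := fun _ hg w hw => ⟨(hg w hw).1, h (hg w hw).2⟩

theorem levelSub_normal (n : ℕ) (S : Subgroup G) [hS : S.Normal] : (R.levelSub n S).Normal := by
  constructor
  intro g hg h w hw
  have h0 : (R.actW h⁻¹ w).length = n := by rw [actW_length, hw]
  have h1 := hg _ h0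
  constructor
  · rw [actW_mul, actW_mul, h1.1, actW_actW_inv]
  · rw [secW_mul, secW_mul, h1.1, secW_inv]
    exact hS.conj_mem _ h1.2 _

/-- `g` is supported below the word `v`. -/
def Supp (v : List X) (g : G) : Prop :=
  ∀ w : List X, w.length = v.length → R.actW g w = w ∧ (w ≠ v → R.secW g w = 1)

variable {R}

theorem Supp.conj {v : List X} {g : G} (h : R.Supp v g) (t : G) :
    R.Supp (R.actW t v) (t * g * t⁻¹) := by
  intro w hw
  rw [actW_length] at hw
  have h0 : (R.actW t⁻¹ w).length = v.length := by rw [actW_length, hw]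
  have h1 := h _ h0
  constructor
  · rw [actW_mul, actW_mul, h1.1, actW_actW_inv]
  · intro hne
    have h2 : R.actW t⁻¹ w ≠ v := by
      intro hc
      apply hne
      rw [← hc, actW_actW_inv]
    rw [secW_mul, secW_mul, h1.2 h2, mul_one, h1.1, secW_inv, mul_inv_cancel]

theorem Supp.commute (hF : R.Faithful) {u v : List X} (huv : u.length = v.length) (hne : u ≠ v)
    {g h : G} (hg : R.Supp u g) (hh : R.Supp v h) : g * h = h * g := by
  apply hF.ext (n := u.length)
  intro w hw
  have h1 := hg w hw
  have h2 := hh w (hw.trans huv)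
  constructor
  · rw [actW_mul, actW_mul, h1.1, h2.1, h1.1]
  · rw [secW_mul, secW_mul, h1.1, h2.1]
    by_cases hwu : w = u
    · have : w ≠ v := by rw [hwu]; exact hne
      rw [h2.2 this, mul_one, one_mul]
    · rw [h1.2 hwu, mul_one, one_mul]

/-! ### Branching -/

theorem RegularBranch.exists_single {K : Subgroup G} (hK : R.RegularBranch K) :
    ∀ (v : List X) (k : G), k ∈ K → ∃ g ∈ K, R.Supp v g ∧ R.secW g v = k := by
  intro v
  induction v with
  | nil =>
    intro k hk
    refine ⟨k, hk, ?_, by simp⟩
    intro w hw
    have hw' : w = [] := List.length_eq_zero_iff.mp hw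
    subst hw'
    simp
  | cons x v ih =>
    intro k hk
    obtain ⟨g, hgK, hgS, hgk⟩ := ih k hk
    obtain ⟨g', hg'K, hg'a, hg'x, hg'y⟩ := hK.2.2 g hgK x
    refine ⟨g', hg'K, ?_, by simp [hg'x, hgk]⟩
    intro w hw
    cases w with
    | nil => simp at hw
    | cons y w =>
      have hw' : w.length = v.length := by simpa using hw
      by_cases hyx : y = x
      · subst hyx
        rw [actW_cons, secW_cons, hg'a, hg'x]
        have h1 := hgS w hw'
        refine ⟨by rw [h1.1], ?_⟩
        intro hne
        apply h1.2
        intro hc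
        apply hne
        rw [hc]
      · rw [actW_cons, secW_cons, hg'a, hg'y y hyx]
        simp

theorem RegularBranch.exists_family {K : Subgroup G} (hK : R.RegularBranch K) [Finite X]
    (n : ℕ) (f : List X → G) (hf : ∀ w, w.length = n → f w ∈ K) :
    ∃ g ∈ K, ∀ w : List X, w.length = n → R.actW g w = w ∧ R.secW g w = f w := by
  classical
  have key : ∀ s : Finset (List X), (∀ w ∈ s, w.length = n) →
      ∃ g ∈ K, ∀ w : List X, w.length = n →
        R.actW g w = w ∧ R.secW g w = if w ∈ s then f w else 1 := by
    intro s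
    induction s using Finset.induction_on with
    | empty => intro _; exact ⟨1, K.one_mem, fun w _ => by simp⟩
    | insert u s hu ih =>
      intro hs
      obtain ⟨g, hgK, hg⟩ := ih (fun w hw => hs w (Finset.mem_insert_of_mem hw))
      have hun : u.length = n := hs u (Finset.mem_insert_self u s)
      obtain ⟨g', hg'K, hg'S, hg'k⟩ := hK.exists_single u (f u) (hf u hun)
      refine ⟨g * g', K.mul_mem hgK hg'K, ?_⟩
      intro w hw
      have h1 := hg w hw
      have h2 := hg'S w (hw.trans hun.symm)
      refine ⟨by rw [actW_mul, h2.1, h1.1], ?_⟩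
      rw [secW_mul, h2.1, h1.2]
      by_cases hwu : w = u
      · subst hwu
        rw [if_neg hu, hg'k, if_pos (Finset.mem_insert_self _ _), one_mul]
      · rw [h2.2 hwu, mul_one]
        simp [Finset.mem_insert, hwu]
  have hfin : {w : List X | w.length = n}.Finite := List.finite_length_eq X n
  obtain ⟨g, hgK, hg⟩ := key hfin.toFinset (fun w hw => by simpa using hw)
  refine ⟨g, hgK, fun w hw => ⟨(hg w hw).1, ?_⟩⟩
  rw [(hg w hw).2, if_pos]
  simpa using hw

theorem RegularBranch.levelSub_le {K : Subgroup G} (hK : R.RegularBranch K) [Finite X]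
    (hF : R.Faithful) (n : ℕ) : R.levelSub n K ≤ K := by
  intro g hg
  obtain ⟨g', hg'K, hg'⟩ := hK.exists_family n (fun w => R.secW g w) (fun w hw => (hg w hw).2)
  have : g = g' := by
    apply hF.ext (n := n)
    intro w hw
    exact ⟨by rw [(hg w hw).1, (hg' w hw).1], (hg' w hw).2.symm⟩
  rw [this]; exact hg'K

/-- For `n ≤ m`, `levelSub m K ≤ levelSub n K`. -/
theorem RegularBranch.levelSub_anti {K : Subgroup G} (hK : R.RegularBranch K) [Finite X]
    [Nonempty X] (hF : R.Faithful) {n m : ℕ} (h : n ≤ m) :
    R.levelSub m K ≤ R.levelSub n K := by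
  obtain ⟨j, rfl⟩ := Nat.exists_eq_add_of_le h
  intro g hg w hw
  have hx : ∀ u : List X, u.length = j → R.actW g w = w ∧ R.actW (R.secW g w) u = u ∧
      R.secW (R.secW g w) u ∈ K := by
    intro u hu
    have h1 := hg (w ++ u) (by simp [hw, hu])
    rw [actW_append, secW_append] at h1
    have h2 := List.append_inj h1.1 (by simp)
    exact ⟨h2.1, h2.2, h1.2⟩
  obtain ⟨x⟩ := ‹Nonempty X›
  refine ⟨(hx (List.replicate j x) (by simp)).1, ?_⟩
  exact hK.levelSub_le hF j (fun u hu => (hx u hu).2)

end WreathRec
end Pool.Agent.Helper96.VW
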