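import Mathlib

/-!
Verbal width and self-similar (wreath recursive) groups: definitions.
-/

namespace Pool.Agent.Helper96.VW

/-- The values in `G` of the words of `V`: all images of elements of `V` under homomorphisms from
the free group on the letters `0, 1, 2, ...` to `G`. -/
def values (V : Set (FreeGroup ℕ)) (G : Type*) [Group G] : Set G :=
  {g | ∃ v ∈ V, ∃ f : FreeGroup ℕ →* G, f v = g}

/-- The verbal subgroup `V(G)`, generated by the values of the words of `V`, has finite width:
there is an `m` such that every element of it is a product of at most `m` factors, each of which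
is a value of a word of `V` or the inverse of one. -/
def FiniteWidth (V : Set (FreeGroup ℕ)) (G : Type*) [Group G] : Prop :=
  ∃ m : ℕ, ∀ g ∈ Subgroup.closure (values V G), ∃ l : List G, l.length ≤ m ∧
    (∀ x ∈ l, x ∈ values V G ∨ x⁻¹ ∈ values V G) ∧ l.prod = g

/-- A self-similar structure (wreath recursion) on the group `G` over the alphabet `X`: an action
of `G` on `X` and, for every `g` in `G` and every letter `x`, a section of `g` at `x`, such that
`g ↦ (act g, sec g)` is a homomorphism to the permutational wreath product of `G` and
`Perm X`. -/
structure WreathRec (X G : Type*) [Group G] where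
  act : G →* Equiv.Perm X
  sec : G → X → G
  sec_mul : ∀ g h x, sec (g * h) x = sec g (act h x) * sec h x

namespace WreathRec

variable {X G : Type*} [Group G] (R : WreathRec X G)

/-- The induced action on finite words: `g (x w) = g(x) g_x(w)`, where `g_x` is the section. -/
def actW : G → List X → List X
  | _, [] => []
  | g, x :: w => R.act g x :: actW (R.sec g x) w

/-- Iterated sections. -/
def secW : G → List X → G
  | g, [] => g
  | g, x :: w => secW (R.sec g x) w

/-- The action on words is faithful. -/
def Faithful : Prop := ∀ g : G, (∀ w, R.actW g w = w) → g = 1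

/-- The action is transitive on the words of every given length. -/
def LevelTransitive : Prop :=
  ∀ v w : List X, v.length = w.length → ∃ g : G, R.actW g v = w

/-- Contracting: there is a finite set `N` such that for every `g` all sections of `g` at
sufficiently long words are in `N`. -/
def Contracting : Prop :=
  ∃ N : Set G, N.Finite ∧ ∀ g : G, ∃ n : ℕ, ∀ w : List X, n ≤ w.length → R.secW g w ∈ N

/-- `G` is regular branch over the normal subgroup `K` of finite index: `K` contains
the direct power of `K` indexed by `X`, acting on the subtrees of the first level. -/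
def RegularBranch (K : Subgroup G) : Prop :=
  K.Normal ∧ K.FiniteIndex ∧ ∀ k ∈ K, ∀ x : X, ∃ g ∈ K,
    (∀ y, R.act g y = y) ∧ R.sec g x = k ∧ ∀ y, y ≠ x → R.sec g y = 1

end WreathRec

/-- The rooted automorphism `a` of the binary tree (words over `Bool`): it changes the first
letter. -/
def gA : List Bool → List Bool
  | [] => []
  | x :: w => (!x) :: w

mutual
  /-- The generator `b = (a, c)`. -/
  def gB : List Bool → List Bool
    | [] => []
    | false :: w => false :: gA w
    | true :: w => true :: gC w
  /-- The generator `c = (a, d)`. -/
  def gC : List Bool → List Bool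
    | [] => []
    | false :: w => false :: gA w
    | true :: w => true :: gD w
  /-- The generator `d = (1, b)`. -/
  def gD : List Bool → List Bool
    | [] => []
    | false :: w => false :: w
    | true :: w => true :: gB w
end

theorem gA_gA (w : List Bool) : gA (gA w) = w := by
  cases w <;> simp [gA]

theorem g_inv : ∀ w : List Bool, gB (gB w) = w ∧ gC (gC w) = w ∧ gD (gD w) = w
  | [] => by simp [gB, gC, gD]
  | false :: w => by simp [gB, gC, gD, gA_gA]
  | true :: w => by
      have h := g_inv w
      simp [gB, gC, gD, h.1, h.2.1, h.2.2]

/-- `a` as a permutation. -/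
def pA : Equiv.Perm (List Bool) := ⟨gA, gA, gA_gA, gA_gA⟩
/-- `b` as a permutation. -/
def pB : Equiv.Perm (List Bool) := ⟨gB, gB, fun w => (g_inv w).1, fun w => (g_inv w).1⟩
/-- `c` as a permutation. -/
def pC : Equiv.Perm (List Bool) := ⟨gC, gC, fun w => (g_inv w).2.1, fun w => (g_inv w).2.1⟩
/-- `d` as a permutation. -/
def pD : Equiv.Perm (List Bool) := ⟨gD, gD, fun w => (g_inv w).2.2, fun w => (g_inv w).2.2⟩

/-- The first Grigorchuk group, generated by `a, b, c, d`. -/
def Grigorchuk : Subgroup (Equiv.Perm (List Bool)) := Subgroup.closure {pA, pB, pC, pD}

end Pool.Agent.Helper96.VW
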