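import Pool.Agent.Helper96.VW.Nil

/-!
Finite index and p-group quotients for level subgroups.
-/

namespace Pool.Agent.Helper96.VW
namespace WreathRec

open scoped commutatorElement

variable {X G : Type*} [Group G] {R : WreathRec X G}

theorem levelSub_finiteIndex [Finite X] (n : ℕ) (S : Subgroup G) [S.FiniteIndex] :
    (R.levelSub n S).FiniteIndex := by
  classical
  have hfin : {w : List X | w.length = n}.Finite := List.finite_length_eq X n
  have : Finite {w : List X // w.length = n} := hfin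
  let f : G → ({w : List X // w.length = n} → {w : List X // w.length = n} × (G ⧸ S)) :=
    fun g w => (⟨R.actW g w, by rw [actW_length]; exact w.2⟩, (QuotientGroup.mk (R.secW g w)))
  have key : ∀ g g' : G, f g = f g' → g⁻¹ * g' ∈ R.levelSub n S := by
    intro g g' h w hw
    have h1 := congrFun h ⟨w, hw⟩
    have h2 : R.actW g w = R.actW g' w := congrArg (fun q => (q.1 : List X)) h1
    have h3 : (QuotientGroup.mk (R.secW g w) : G ⧸ S) = QuotientGroup.mk (R.secW g' w) :=
      congrArg Prod.snd h1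
    rw [QuotientGroup.eq] at h3
    constructor
    · rw [actW_mul, ← h2, actW_inv_actW]
    · rw [secW_mul, secW_inv, ← h2, actW_inv_actW]
      exact h3
  have : Finite (G ⧸ R.levelSub n S) := by
    apply Finite.of_injective (fun q : G ⧸ R.levelSub n S => f q.out)
    intro q q' h
    have := key _ _ h
    rw [← QuotientGroup.out_eq' q, ← QuotientGroup.out_eq' q']
    exact QuotientGroup.eq.mpr this
  exact Subgroup.finiteIndex_of_finite_quotient

theorem act_pow_of_one {h : G} (hh : R.act h = 1) (m : ℕ) : R.act (h ^ m) = 1 := by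
  rw [map_pow, hh, one_pow]

theorem sec_pow_of_one {h : G} (hh : R.act h = 1) (x : X) (m : ℕ) :
    R.sec (h ^ m) x = R.sec h x ^ m := by
  induction m with
  | zero => simp
  | succ m ih => rw [pow_succ, R.sec_mul, hh, Equiv.Perm.coe_one, id_eq, ih, pow_succ]

theorem exists_pow_actW [Finite X] {p : ℕ} (ha : IsPGroup p R.act.range) (n : ℕ) :
    ∀ g : G, ∃ k : ℕ, ∀ w : List X, w.length = n → R.actW (g ^ p ^ k) w = w := by
  induction n with
  | zero =>
    intro g
    refine ⟨0, fun w hw => ?_⟩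
    rw [List.length_eq_zero_iff] at hw
    subst hw
    simp
  | succ n ih =>
    intro g
    obtain ⟨k0, hk0⟩ := ha ⟨R.act g, ⟨g, rfl⟩⟩
    have hk0' : R.act (g ^ p ^ k0) = 1 := by
      have := congrArg Subtype.val hk0
      simpa using this
    have hk : ∀ x : X, ∃ k : ℕ, ∀ w : List X, w.length = n →
        R.actW (R.sec (g ^ p ^ k0) x ^ p ^ k) w = w := fun x => ih _
    choose kx hkx using hk
    obtain ⟨k1, hk1⟩ := Finite.exists_le kx
    refine ⟨k0 + k1, ?_⟩
    intro w hw
    cases w with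
    | nil => simp at hw
    | cons x w =>
      have hw' : w.length = n := by simpa using hw
      rw [pow_add, pow_mul, actW_cons, act_pow_of_one hk0', sec_pow_of_one hk0']
      obtain ⟨j, hj⟩ := Nat.exists_eq_add_of_le (hk1 x)
      have h1 : ∀ m : ℕ, R.actW ((R.sec (g ^ p ^ k0) x ^ p ^ (kx x)) ^ m) w = w := by
        intro m
        induction m with
        | zero => simp
        | succ m ihm => rw [pow_succ, actW_mul, hkx x w hw', ihm]
      rw [hj, pow_add, pow_mul, h1]
      simp

theorem actW_pow_of_fix {h : G} {w : List X} (hh : R.actW h w = w) (m : ℕ) :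
    R.actW (h ^ m) w = w := by
  induction m with
  | zero => simp
  | succ m ih => rw [pow_succ, actW_mul, hh, ih]

theorem secW_pow_of_fix {h : G} {w : List X} (hh : R.actW h w = w) (m : ℕ) :
    R.secW (h ^ m) w = R.secW h w ^ m := by
  induction m with
  | zero => simp
  | succ m ih => rw [pow_succ, secW_mul, hh, ih, pow_succ]

theorem exists_pow_mem_levelSub [Finite X] {p : ℕ} (ha : IsPGroup p R.act.range)
    {S : Subgroup G} (hS : ∀ g : G, ∃ k : ℕ, g ^ p ^ k ∈ S) (n : ℕ) (g : G) :
    ∃ k : ℕ, g ^ p ^ k ∈ R.levelSub n S := by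
  obtain ⟨k0, hk0⟩ := exists_pow_actW ha n g
  have hfin : {w : List X | w.length = n}.Finite := List.finite_length_eq X n
  choose kw hkw using fun w : List X => hS (R.secW (g ^ p ^ k0) w)
  obtain ⟨k1, hk1⟩ := (hfin.image kw).bddAbove
  refine ⟨k0 + k1, ?_⟩
  intro w hw
  rw [pow_add, pow_mul]
  refine ⟨actW_pow_of_fix (hk0 w hw) _, ?_⟩
  rw [secW_pow_of_fix (hk0 w hw)]
  obtain ⟨j, hj⟩ := Nat.exists_eq_add_of_le (hk1 ⟨w, hw, rfl⟩)
  rw [hj, pow_add, pow_mul]
  exact S.pow_mem (hkw w) _

/-! ### Normal subgroups -/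

theorem levelSub_commutator_le (hF : R.Faithful) (hT : R.LevelTransitive) [Finite X]
    {K : Subgroup G} (hK : R.RegularBranch K) {S : Set G}
    (hSc : ∀ x ∈ S, ∀ t : G, t * x * t⁻¹ ∈ S)
    (hSi : ∀ x ∈ S, x⁻¹ ∈ S) {h : G} (hh : h ∈ S) {v : List X} (hv : R.actW h v ≠ v) :
    R.levelSub v.length ⁅K, K⁆ ≤ Subgroup.closure S := by
  intro z hz
  obtain ⟨M, hM⟩ := commutator_levelSub hF hT hK hSc hSi hh hv
  have hfin : {w : List X | w.length = v.length}.Finite := List.finite_length_eq X v.length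
  obtain ⟨c, hc⟩ := exists_CL_uniform (K := K) (hfin.image (fun w => R.secW z w))
  have : z ∈ Pw S (c * M) := by
    apply mem_Pw_of_sections hF hK hM c z
    intro w hw
    exact ⟨(hz w hw).1, hc _ ⟨w, hw, rfl⟩ (hz w hw).2⟩
  exact Pw_subset_closure this

theorem Faithful.exists_moved (hF : R.Faithful) {h : G} (hh : h ≠ 1) :
    ∃ v : List X, R.actW h v ≠ v := by
  by_contra hc
  push Not at hc
  exact hh (hF h hc)

theorem exists_ne_one_of_ne_bot {N : Subgroup G} (hN1 : N ≠ ⊥) : ∃ h : G, h ∈ N ∧ h ≠ 1 := by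
  by_contra hc
  push Not at hc
  apply hN1
  rw [eq_bot_iff]
  intro h hh
  exact Subgroup.mem_bot.mpr (hc h hh)

theorem normal_finiteIndex (hF : R.Faithful) (hT : R.LevelTransitive) [Finite X]
    {K : Subgroup G} (hK : R.RegularBranch K) (hK' : (⁅K, K⁆ : Subgroup G).FiniteIndex)
    {N : Subgroup G} [hN : N.Normal] (hN1 : N ≠ ⊥) : N.FiniteIndex := by
  obtain ⟨h, hhN, hh1⟩ := exists_ne_one_of_ne_bot hN1
  obtain ⟨v, hv⟩ := hF.exists_moved hh1
  have h1 := levelSub_commutator_le hF hT hK (S := (N : Set G))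
    (fun x hx t => hN.conj_mem x hx t) (fun x hx => N.inv_mem hx) hhN hv
  rw [Subgroup.closure_eq] at h1
  have := levelSub_finiteIndex (R := R) v.length (⁅K, K⁆ : Subgroup G)
  exact Subgroup.finiteIndex_of_le h1

theorem commutator_finiteIndex (hF : R.Faithful) (hT : R.LevelTransitive) [Finite X]
    {K : Subgroup G} (hK : R.RegularBranch K) (hK' : (⁅K, K⁆ : Subgroup G).FiniteIndex)
    {N : Subgroup G} [hN : N.Normal] (hN1 : N ≠ ⊥) : (⁅N, N⁆ : Subgroup G).FiniteIndex := by
  by_cases hNN : (⁅N, N⁆ : Subgroup G) = ⊥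
  · have hKK : (⁅K, K⁆ : Subgroup G) = ⊥ := by
      rw [eq_bot_iff, Subgroup.commutator_le]
      intro k hk l hl
      rw [Subgroup.mem_bot, commutatorElement_eq_one_iff_mul_comm]
      obtain ⟨h, hhN, hh1⟩ := exists_ne_one_of_ne_bot hN1
      obtain ⟨v, hv⟩ := hF.exists_moved hh1
      obtain ⟨P, hPK, hPS, hPk⟩ := hK.exists_single v k hk
      obtain ⟨Q, hQK, hQS, hQl⟩ := hK.exists_single v l hl
      have mem : ∀ P : G, P * (h * P⁻¹ * h⁻¹) ∈ N := by
        intro P
        have : P * (h * P⁻¹ * h⁻¹) = (P * h * P⁻¹) * h⁻¹ := by group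
        rw [this]
        exact N.mul_mem (hN.conj_mem h hhN P) (N.inv_mem hhN)
      have sec : ∀ P : G, R.Supp v P → R.actW (P * (h * P⁻¹ * h⁻¹)) v = v ∧
          R.secW (P * (h * P⁻¹ * h⁻¹)) v = R.secW P v := by
        intro P hP
        have hPi : R.Supp v P⁻¹ := by
          intro w hw
          have h1 := hP w hw
          have h2 : R.actW P⁻¹ w = w := by
            have := congrArg (R.actW P⁻¹) h1.1
            rw [actW_inv_actW] at this
            exact this.symm
          refine ⟨h2, fun hne => ?_⟩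
          rw [secW_inv, h2, h1.2 hne, inv_one]
        have h1 := (hPi.conj h) v (by simp)
        have h2 := h1.2 (fun hc => hv hc.symm)
        refine ⟨by rw [actW_mul, h1.1, (hP v rfl).1], ?_⟩
        rw [secW_mul, h1.1, h2, mul_one]
      have hcomm : (P * (h * P⁻¹ * h⁻¹)) * (Q * (h * Q⁻¹ * h⁻¹)) =
          (Q * (h * Q⁻¹ * h⁻¹)) * (P * (h * P⁻¹ * h⁻¹)) := by
        rw [← commutatorElement_eq_one_iff_mul_comm, ← Subgroup.mem_bot, ← hNN]
        exact Subgroup.commutator_mem_commutator (mem P) (mem Q)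
      have h3 := congrArg (fun g => R.secW g v) hcomm
      simp only [secW_mul R (P * (h * P⁻¹ * h⁻¹)), secW_mul R (Q * (h * Q⁻¹ * h⁻¹))] at h3
      rw [(sec P hPS).1, (sec Q hQS).1, (sec P hPS).2, (sec Q hQS).2, hPk, hQl] at h3
      exact h3
    rw [hNN, ← hKK]
    exact hK'
  · exact normal_finiteIndex hF hT hK hK' hNN

end WreathRec
end Pool.Agent.Helper96.VW
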