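import Pool.Agent.Helper96.VW.Gri2

/-!
Statement of the result for MP_bcef47_al.
-/

namespace Pool.Agent.Helper96.VW

open scoped commutatorElement

universe u v

theorem final :
    (∀ (X : Type u) (G : Type v) [Finite X] [Group G] [Group.FG G] (R : WreathRec X G)
      (K : Subgroup G) (p : ℕ), p.Prime → R.Faithful → R.LevelTransitive → R.Contracting →
      R.RegularBranch K → IsPGroup p R.act.range →
      (∀ g : G, ∃ k : ℕ, g ^ p ^ k ∈ (⁅K, K⁆ : Subgroup G)) →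
      (∀ S : Set G, (∀ x ∈ S, x⁻¹ ∈ S) → (∀ x ∈ S, ∀ t : G, t * x * t⁻¹ ∈ S) →
        ∃ m : ℕ, ∀ g ∈ Subgroup.closure S,
          ∃ l : List G, l.length ≤ m ∧ (∀ x ∈ l, x ∈ S) ∧ l.prod = g) ∧
      ∀ V : Set (FreeGroup ℕ), FiniteWidth V G) ∧
    ∀ V : Set (FreeGroup ℕ), FiniteWidth V Grigorchuk := by
  refine ⟨?_, Gri.finiteWidth⟩
  intro X G _ _ _ R K p hp hF hT hC hK ha hpk
  have : Fact p.Prime := ⟨hp⟩
  have hK' : (⁅K, K⁆ : Subgroup G).FiniteIndex := by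
    apply commutator_finiteIndex_of_torsion hK.2.1
    intro k _
    obtain ⟨n, hn⟩ := hpk k
    exact ⟨p ^ n, pow_pos hp.pos n, hn⟩
  exact ⟨fun S hSi hSc => WreathRec.core hF hT hC hK hK' ha hpk S hSc hSi,
    fun V => WreathRec.finiteWidth_all hF hT hC hK hK' ha hpk V⟩

end Pool.Agent.Helper96.VW
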