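import Pool.Agent.Helper96.VW.Main

/-!
The first Grigorchuk group: wreath recursion, transitivity, contraction.
-/

namespace Pool.Agent.Helper96.VW
namespace Gri

/-- `a` as an element of the group. -/
def a : Grigorchuk := ⟨pA, Subgroup.subset_closure (by simp)⟩
/-- `b` as an element of the group. -/
def b : Grigorchuk := ⟨pB, Subgroup.subset_closure (by simp)⟩
/-- `c` as an element of the group. -/
def c : Grigorchuk := ⟨pC, Subgroup.subset_closure (by simp)⟩
/-- `d` as an element of the group. -/
def d : Grigorchuk := ⟨pD, Subgroup.subset_closure (by simp)⟩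

/-- `g` acts on the first letter by `σ` and on the rest by the sections `s`. -/
def Dec (g : Equiv.Perm (List Bool)) (σ : Equiv.Perm Bool) (s : Bool → Grigorchuk) : Prop :=
  g [] = [] ∧ ∀ x w, g (x :: w) = σ x :: (s x : Equiv.Perm (List Bool)) w

theorem Dec.unique {g : Equiv.Perm (List Bool)} {σ σ' : Equiv.Perm Bool} {s s' : Bool → Grigorchuk}
    (h : Dec g σ s) (h' : Dec g σ' s') : σ = σ' ∧ s = s' := by
  constructor
  · ext x
    have := (h.2 x []).symm.trans (h'.2 x [])
    exact (List.cons.inj this).1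
  · funext x
    apply Subtype.ext
    apply Equiv.ext
    intro w
    have := (h.2 x w).symm.trans (h'.2 x w)
    exact (List.cons.inj this).2

theorem dec_mul {g h : Equiv.Perm (List Bool)} {σ τ : Equiv.Perm Bool} {s t : Bool → Grigorchuk}
    (hg : Dec g σ s) (hh : Dec h τ t) : Dec (g * h) (σ * τ) (fun x => s (τ x) * t x) := by
  constructor
  · rw [Equiv.Perm.mul_apply, hh.1, hg.1]
  · intro x w
    rw [Equiv.Perm.mul_apply, hh.2, hg.2]
    simp

theorem dec_inv {g : Equiv.Perm (List Bool)} {σ : Equiv.Perm Bool} {s : Bool → Grigorchuk}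
    (hg : Dec g σ s) : Dec g⁻¹ σ⁻¹ (fun x => (s (σ⁻¹ x))⁻¹) := by
  constructor
  · rw [Equiv.Perm.inv_eq_iff_eq, hg.1]
  · intro x w
    rw [Equiv.Perm.inv_eq_iff_eq, hg.2]
    simp

theorem dec_one : Dec 1 1 (fun _ => 1) := ⟨rfl, fun x w => by simp⟩

theorem dec_a : Dec pA Equiv.boolNot (fun _ => 1) := by
  constructor
  · rfl
  · intro x w
    change gA (x :: w) = _
    simp [gA]

theorem dec_b : Dec pB 1 (fun x => bif x then c else a) := by
  constructor
  · change gB [] = []
    simp [gB]
  · intro x w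
    change gB (x :: w) = _
    cases x
    · simp only [gB]; rfl
    · simp only [gB]; rfl

theorem dec_c : Dec pC 1 (fun x => bif x then d else a) := by
  constructor
  · change gC [] = []
    simp [gC]
  · intro x w
    change gC (x :: w) = _
    cases x
    · simp only [gC]; rfl
    · simp only [gC]; rfl

theorem dec_d : Dec pD 1 (fun x => bif x then b else 1) := by
  constructor
  · change gD [] = []
    simp [gD]
  · intro x w
    change gD (x :: w) = _
    cases x
    · simp only [gD]; rfl
    · simp only [gD]; rfl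

theorem exists_dec (g : Grigorchuk) :
    ∃ q : Equiv.Perm Bool × (Bool → Grigorchuk), Dec (g : Equiv.Perm (List Bool)) q.1 q.2 := by
  obtain ⟨g, hg⟩ := g
  induction hg using Subgroup.closure_induction with
  | mem x hx =>
    simp only [Set.mem_insert_iff, Set.mem_singleton_iff] at hx
    rcases hx with rfl | rfl | rfl | rfl
    · exact ⟨(_, _), dec_a⟩
    · exact ⟨(_, _), dec_b⟩
    · exact ⟨(_, _), dec_c⟩
    · exact ⟨(_, _), dec_d⟩
  | one => exact ⟨(_, _), dec_one⟩
  | mul x y _ _ hx hy =>
    obtain ⟨q, hq⟩ := hx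
    obtain ⟨q', hq'⟩ := hy
    exact ⟨(_, _), dec_mul hq hq'⟩
  | inv x _ hx =>
    obtain ⟨q, hq⟩ := hx
    exact ⟨(_, _), dec_inv hq⟩

/-- The wreath recursion of the Grigorchuk group. -/
noncomputable def R : WreathRec Bool Grigorchuk where
  act := MonoidHom.mk' (fun g => (exists_dec g).choose.1) (by
    intro g h
    exact ((exists_dec (g * h)).choose_spec.unique
      (dec_mul (exists_dec g).choose_spec (exists_dec h).choose_spec)).1)
  sec g := (exists_dec g).choose.2
  sec_mul g h x := congrFun ((exists_dec (g * h)).choose_spec.unique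
      (dec_mul (exists_dec g).choose_spec (exists_dec h).choose_spec)).2 x

theorem dec_R (g : Grigorchuk) : Dec (g : Equiv.Perm (List Bool)) (R.act g) (R.sec g) :=
  (exists_dec g).choose_spec

@[simp] theorem act_a : R.act a = Equiv.boolNot := ((dec_R a).unique dec_a).1
@[simp] theorem sec_a (x : Bool) : R.sec a x = 1 := congrFun ((dec_R a).unique dec_a).2 x
@[simp] theorem act_b : R.act b = 1 := ((dec_R b).unique dec_b).1
@[simp] theorem sec_b (x : Bool) : R.sec b x = bif x then c else a :=
  congrFun ((dec_R b).unique dec_b).2 x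
@[simp] theorem act_c : R.act c = 1 := ((dec_R c).unique dec_c).1
@[simp] theorem sec_c (x : Bool) : R.sec c x = bif x then d else a :=
  congrFun ((dec_R c).unique dec_c).2 x
@[simp] theorem act_d : R.act d = 1 := ((dec_R d).unique dec_d).1
@[simp] theorem sec_d (x : Bool) : R.sec d x = bif x then b else 1 :=
  congrFun ((dec_R d).unique dec_d).2 x

theorem actW_eq (g : Grigorchuk) (w : List Bool) :
    R.actW g w = (g : Equiv.Perm (List Bool)) w := by
  induction w generalizing g with
  | nil => rw [WreathRec.actW_nil, (dec_R g).1]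
  | cons x w ih => rw [WreathRec.actW_cons, (dec_R g).2, ih]

theorem faithful : R.Faithful := by
  intro g hg
  apply Subtype.ext
  apply Equiv.ext
  intro w
  rw [← actW_eq, hg]
  rfl

theorem ext {g h : Grigorchuk} (h1 : R.act g = R.act h) (h2 : ∀ x, R.sec g x = R.sec h x) :
    g = h := by
  apply faithful.ext (n := 1)
  intro w hw
  obtain ⟨x, rfl⟩ := List.length_eq_one_iff.mp hw
  simp [h1, h2]

/-! ### Relations -/

theorem a_mul_a : a * a = 1 := by
  apply ext
  · ext x; simp
  · intro x; simp [R.sec_mul]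

theorem inv_rel : (b * b = 1 ∧ c * c = 1) ∧ d * d = 1 := by
  refine ⟨⟨?_, ?_⟩, ?_⟩
  · apply Subtype.ext; apply Equiv.ext; intro w; exact (g_inv w).1
  · apply Subtype.ext; apply Equiv.ext; intro w; exact (g_inv w).2.1
  · apply Subtype.ext; apply Equiv.ext; intro w; exact (g_inv w).2.2

theorem b_mul_b : b * b = 1 := inv_rel.1.1
theorem c_mul_c : c * c = 1 := inv_rel.1.2
theorem d_mul_d : d * d = 1 := inv_rel.2

theorem g_rel : ∀ w : List Bool, gB (gC w) = gD w ∧ gC (gD w) = gB w ∧ gD (gB w) = gC w
  | [] => by simp [gB, gC, gD]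
  | false :: w => by simp [gB, gC, gD, gA_gA]
  | true :: w => by
      have h := g_rel w
      simp [gB, gC, gD, h.1, h.2.1, h.2.2]

theorem b_mul_c : b * c = d := by
  apply Subtype.ext; apply Equiv.ext; intro w; exact (g_rel w).1
theorem c_mul_d : c * d = b := by
  apply Subtype.ext; apply Equiv.ext; intro w; exact (g_rel w).2.1
theorem d_mul_b : d * b = c := by
  apply Subtype.ext; apply Equiv.ext; intro w; exact (g_rel w).2.2

theorem a_inv : a⁻¹ = a := inv_eq_of_mul_eq_one_right a_mul_a
theorem b_inv : b⁻¹ = b := inv_eq_of_mul_eq_one_right b_mul_b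
theorem c_inv : c⁻¹ = c := inv_eq_of_mul_eq_one_right c_mul_c
theorem d_inv : d⁻¹ = d := inv_eq_of_mul_eq_one_right d_mul_d

theorem c_mul_b : c * b = d := by
  have h := congrArg (fun g => g⁻¹) b_mul_c
  simpa [mul_inv_rev, b_inv, c_inv, d_inv] using h
theorem d_mul_c : d * c = b := by
  have h := congrArg (fun g => g⁻¹) c_mul_d
  simpa [mul_inv_rev, b_inv, c_inv, d_inv] using h
theorem b_mul_d : b * d = c := by
  have h := congrArg (fun g => g⁻¹) d_mul_b
  simpa [mul_inv_rev, b_inv, c_inv, d_inv] using h

/-! ### Letters -/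

/-- The four letters. -/
inductive Lt | a | b | c | d
  deriving DecidableEq, Fintype

/-- The generator of a letter. -/
def toG : Lt → Grigorchuk
  | .a => a
  | .b => b
  | .c => c
  | .d => d

/-- Evaluation of a word in the letters. -/
def ev (l : List Lt) : Grigorchuk := (l.map toG).prod

@[simp] theorem ev_nil : ev [] = 1 := rfl
@[simp] theorem ev_cons (t : Lt) (l : List Lt) : ev (t :: l) = toG t * ev l := by
  simp [ev]
theorem ev_append (l l' : List Lt) : ev (l ++ l') = ev l * ev l' := by
  simp [ev]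

theorem toG_inv (t : Lt) : (toG t)⁻¹ = toG t := by
  cases t
  · exact a_inv
  · exact b_inv
  · exact c_inv
  · exact d_inv

theorem ev_inv (l : List Lt) : (ev l)⁻¹ = ev l.reverse := by
  induction l with
  | nil => simp
  | cons t l ih => rw [ev_cons, mul_inv_rev, ih, List.reverse_cons, ev_append, toG_inv]; simp

theorem exists_ev (g : Grigorchuk) : ∃ l, ev l = g := by
  obtain ⟨g, hg⟩ := g
  induction hg using Subgroup.closure_induction with
  | mem x hx =>
    simp only [Set.mem_insert_iff, Set.mem_singleton_iff] at hx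
    rcases hx with rfl | rfl | rfl | rfl
    · exact ⟨[Lt.a], by simp [toG, a]⟩
    · exact ⟨[Lt.b], by simp [toG, b]⟩
    · exact ⟨[Lt.c], by simp [toG, c]⟩
    · exact ⟨[Lt.d], by simp [toG, d]⟩
  | one => exact ⟨[], rfl⟩
  | mul x y hx' hy' hx hy =>
    obtain ⟨l, hl⟩ := hx
    obtain ⟨l', hl'⟩ := hy
    exact ⟨l ++ l', by rw [ev_append, hl, hl']; rfl⟩
  | inv x hx' hx =>
    obtain ⟨l, hl⟩ := hx
    exact ⟨l.reverse, by rw [← ev_inv, hl]; rfl⟩

instance : Group.FG Grigorchuk := by
  rw [Group.fg_iff_subgroup_fg, Subgroup.fg_iff]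
  exact ⟨_, rfl, Set.toFinite _⟩

/-- Number of letters different from `a`. -/
def nonA : List Lt → ℕ
  | [] => 0
  | Lt.a :: l => nonA l
  | _ :: l => nonA l + 1

theorem sec_ev (l : List Lt) (x : Bool) :
    ∃ l' : List Lt, l'.length ≤ nonA l ∧ ev l' = R.sec (ev l) x := by
  induction l with
  | nil => exact ⟨[], by simp [nonA], by simp⟩
  | cons t l ih =>
    obtain ⟨l', h1, h2⟩ := ih
    rw [ev_cons, R.sec_mul, ← h2]
    cases t with
    | a => exact ⟨l', by simpa [nonA] using h1, by simp [toG]⟩
    | b =>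
      cases hx : R.act (ev l) x
      · exact ⟨Lt.a :: l', by simpa [nonA] using h1, by simp [toG]⟩
      · exact ⟨Lt.c :: l', by simpa [nonA] using h1, by simp [toG]⟩
    | c =>
      cases hx : R.act (ev l) x
      · exact ⟨Lt.a :: l', by simpa [nonA] using h1, by simp [toG]⟩
      · exact ⟨Lt.d :: l', by simpa [nonA] using h1, by simp [toG]⟩
    | d =>
      cases hx : R.act (ev l) x
      · exact ⟨l', by simp only [nonA]; omega, by simp [toG]⟩
      · exact ⟨Lt.b :: l', by simpa [nonA] using h1, by simp [toG]⟩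

theorem nonA_cons_of_ne {t : Lt} (ht : t ≠ Lt.a) (l : List Lt) : nonA (t :: l) = nonA l + 1 := by
  cases t
  · exact absurd rfl ht
  · simp [nonA]
  · simp [nonA]
  · simp [nonA]

theorem merge {t s : Lt} (ht : t ≠ Lt.a) (hs : s ≠ Lt.a) :
    toG t * toG s = 1 ∨ ∃ u : Lt, toG t * toG s = toG u := by
  cases t <;> cases s
  all_goals first
    | exact absurd rfl ht
    | exact absurd rfl hs
    | exact Or.inl b_mul_b
    | exact Or.inl c_mul_c
    | exact Or.inl d_mul_d
    | exact Or.inr ⟨Lt.d, b_mul_c⟩
    | exact Or.inr ⟨Lt.c, b_mul_d⟩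
    | exact Or.inr ⟨Lt.d, c_mul_b⟩
    | exact Or.inr ⟨Lt.b, c_mul_d⟩
    | exact Or.inr ⟨Lt.c, d_mul_b⟩
    | exact Or.inr ⟨Lt.b, d_mul_c⟩

theorem reduce : ∀ (n : ℕ) (l : List Lt), l.length ≤ n →
    ∃ l' : List Lt, ev l' = ev l ∧ l'.length ≤ l.length ∧ 2 * nonA l' ≤ l'.length + 1 := by
  intro n
  induction n using Nat.strong_induction_on with
  | _ n ih =>
    intro l hl
    match l, hl with
    | [], _ => exact ⟨[], rfl, le_refl _, by simp [nonA]⟩
    | [t], _ => exact ⟨[t], rfl, le_refl _, by cases t <;> simp [nonA]⟩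
    | t :: s :: r, hl =>
      simp only [List.length_cons] at hl
      by_cases ht : t = Lt.a
      · subst ht
        obtain ⟨l', h1, h2, h3⟩ := ih (n - 1) (by omega) (s :: r) (by simp; omega)
        refine ⟨Lt.a :: l', by rw [ev_cons, ev_cons, h1], by simpa using h2, ?_⟩
        simp only [nonA, List.length_cons]
        omega
      · by_cases hs : s = Lt.a
        · subst hs
          obtain ⟨l', h1, h2, h3⟩ := ih (n - 2) (by omega) r (by omega)
          refine ⟨t :: Lt.a :: l', by simp only [ev_cons, h1], by simpa using h2, ?_⟩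
          rw [nonA_cons_of_ne ht]
          simp only [nonA, List.length_cons]
          omega
        · rcases merge ht hs with h | ⟨u, h⟩
          · obtain ⟨l', h1, h2, h3⟩ := ih (n - 2) (by omega) r (by omega)
            refine ⟨l', ?_, by simp only [List.length_cons]; omega, h3⟩
            rw [h1, ev_cons, ev_cons, ← mul_assoc, h, one_mul]
          · obtain ⟨l', h1, h2, h3⟩ := ih (n - 1) (by omega) (u :: r) (by simp; omega)
            refine ⟨l', ?_, by simp only [List.length_cons] at h2 ⊢; omega, h3⟩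
            rw [h1, ev_cons, ev_cons, ev_cons, ← mul_assoc, h]

/-- `g` is a product of at most `n` letters. -/
def LenLE (g : Grigorchuk) (n : ℕ) : Prop := ∃ l : List Lt, l.length ≤ n ∧ ev l = g

theorem LenLE.mono {g : Grigorchuk} {m n : ℕ} (h : m ≤ n) (hg : LenLE g m) : LenLE g n := by
  obtain ⟨l, h1, h2⟩ := hg
  exact ⟨l, h1.trans h, h2⟩

theorem LenLE.sec {g : Grigorchuk} {n : ℕ} (hg : LenLE g n) (x : Bool) :
    LenLE (R.sec g x) (max 1 (n - 1)) := by
  obtain ⟨l, h1, rfl⟩ := hg
  obtain ⟨l', e, h2, h3⟩ := reduce l.length l (le_refl _)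
  obtain ⟨l'', h4, h5⟩ := sec_ev l' x
  rw [e] at h5
  refine ⟨l'', ?_, h5⟩
  omega

theorem LenLE.secW {g : Grigorchuk} {n : ℕ} (hg : LenLE g n) (w : List Bool) :
    LenLE (R.secW g w) (max 1 (n - w.length)) := by
  induction w generalizing g n with
  | nil => exact hg.mono (by simp)
  | cons x w ih =>
    rw [WreathRec.secW_cons]
    refine (ih (hg.sec x)).mono ?_
    simp only [List.length_cons]
    omega

theorem contracting : R.Contracting := by
  refine ⟨{g | LenLE g 1}, ?_, ?_⟩
  · have : {g : Grigorchuk | LenLE g 1} = ev '' {l : List Lt | l.length ≤ 1} := by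
      ext g
      constructor
      · rintro ⟨l, h1, h2⟩
        exact ⟨l, h1, h2⟩
      · rintro ⟨l, h1, h2⟩
        exact ⟨l, h1, h2⟩
    rw [this]
    exact (List.finite_length_le Lt 1).image _
  · intro g
    obtain ⟨l, hl⟩ := exists_ev g
    refine ⟨l.length, fun w hw => ?_⟩
    have : LenLE g l.length := ⟨l, le_refl _, hl⟩
    exact (this.secW w).mono (by omega)

/-! ### Transitivity -/

theorem exists_sec (x : Bool) (t : Grigorchuk) : ∃ s : Grigorchuk, R.act s = 1 ∧ R.sec s x = t := by
  have key : ∀ l : List Lt, ∃ s : Grigorchuk, R.act s = 1 ∧ R.sec s x = ev l := by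
    intro l
    induction l with
    | nil => exact ⟨1, by simp, by simp⟩
    | cons t l ih =>
      obtain ⟨s, h1, h2⟩ := ih
      have ht : ∃ u : Grigorchuk, R.act u = 1 ∧ R.sec u x = toG t := by
        have e1 : (Equiv.boolNot * Equiv.boolNot : Equiv.Perm Bool) = 1 := by
          ext y; simp
        cases x
        · cases t with
          | a => exact ⟨b, by simp, by simp [toG]⟩
          | b => exact ⟨a * d * a, by simp [e1], by simp [toG, R.sec_mul]⟩
          | c => exact ⟨a * b * a, by simp [e1], by simp [toG, R.sec_mul]⟩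
          | d => exact ⟨a * c * a, by simp [e1], by simp [toG, R.sec_mul]⟩
        · cases t with
          | a => exact ⟨a * b * a, by simp [e1], by simp [toG, R.sec_mul]⟩
          | b => exact ⟨d, by simp, by simp [toG]⟩
          | c => exact ⟨b, by simp, by simp [toG]⟩
          | d => exact ⟨c, by simp, by simp [toG]⟩
      obtain ⟨u, h3, h4⟩ := ht
      refine ⟨u * s, by rw [map_mul, h1, h3, one_mul], ?_⟩
      rw [R.sec_mul, h1, h2, ev_cons]
      simp [h4]
  obtain ⟨l, rfl⟩ := exists_ev t
  exact key l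

theorem levelTransitive : R.LevelTransitive := by
  intro v
  induction v with
  | nil =>
    intro w hw
    refine ⟨1, ?_⟩
    rw [List.length_nil] at hw
    rw [List.length_eq_zero_iff.mp hw.symm]
    simp
  | cons x v ih =>
    intro w hw
    cases w with
    | nil => simp at hw
    | cons y w =>
      obtain ⟨t, ht⟩ := ih w (by simpa using hw)
      obtain ⟨s, h1, h2⟩ := exists_sec x t
      by_cases hxy : x = y
      · subst hxy
        exact ⟨s, by simp [h1, h2, ht]⟩
      · refine ⟨a * s, ?_⟩
        rw [WreathRec.actW_mul, WreathRec.actW_cons, h1, h2, ht, WreathRec.actW_cons]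
        have : (!x) = y := by cases x <;> cases y <;> simp_all
        simp [this]

end Gri
end Pool.Agent.Helper96.VW
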