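import Pool.Agent.Helper96.VW.Main

/-!
Torsion abelianizations and the corollary for `p`-groups.
-/

namespace Pool.Agent.Helper96.VW

open scoped commutatorElement

/-- If `K` has finite index in the finitely generated group `G` and all elements of `K` are
torsion modulo `⁅K, K⁆` then `⁅K, K⁆` has finite index. -/
theorem commutator_finiteIndex_of_torsion {G : Type*} [Group G] [Group.FG G] {K : Subgroup G}
    (hK : K.FiniteIndex) (ht : ∀ k ∈ K, ∃ n : ℕ, 0 < n ∧ k ^ n ∈ (⁅K, K⁆ : Subgroup G)) :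
    (⁅K, K⁆ : Subgroup G).FiniteIndex := by
  have hKfg : Group.FG K := Subgroup.fg_of_index_ne_zero K
  have hAfg : Group.FG (Abelianization K) :=
    Group.fg_of_surjective (f := Abelianization.of) (QuotientGroup.mk'_surjective _)
  have hmem : ∀ k : K, (k : G) ∈ (⁅K, K⁆ : Subgroup G) → k ∈ commutator K := by
    intro k hk
    rw [← Subgroup.map_subtype_commutator] at hk
    obtain ⟨k', hk', he⟩ := hk
    have : k' = k := Subtype.ext he
    rwa [← this]
  have hAt : IsMulTorsion (Abelianization K) := by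
    intro q
    obtain ⟨k, rfl⟩ := QuotientGroup.mk_surjective q
    obtain ⟨n, hn, hkn⟩ := ht k k.2
    rw [isOfFinOrder_iff_pow_eq_one]
    refine ⟨n, hn, ?_⟩
    change (QuotientGroup.mk k : K ⧸ commutator K) ^ n = 1
    rw [← QuotientGroup.mk_pow, QuotientGroup.eq_one_iff]
    exact hmem _ (by simpa using hkn)
  have hAfin : Finite (Abelianization K) := CommGroup.finite_of_fg_isMulTorsion _ hAt
  have h1 : (commutator K).FiniteIndex := by
    have : Finite (K ⧸ commutator K) := hAfin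
    exact Subgroup.finiteIndex_of_finite_quotient
  have h2 : (⁅K, K⁆ : Subgroup G).subgroupOf K = commutator K := by
    ext k
    rw [Subgroup.mem_subgroupOf]
    refine ⟨hmem k, fun hk => ?_⟩
    rw [← Subgroup.map_subtype_commutator]
    exact ⟨k, hk, rfl⟩
  constructor
  have h3 : (⁅K, K⁆ : Subgroup G) ≤ K := by
    rw [← Subgroup.map_subtype_commutator]
    exact Subgroup.map_subtype_le _
  rw [← Subgroup.relIndex_mul_index h3]
  apply mul_ne_zero
  · change ((⁅K, K⁆ : Subgroup G).subgroupOf K).index ≠ 0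
    rw [h2]
    exact h1.index_ne_zero
  · exact hK.index_ne_zero

namespace WreathRec

variable {X G : Type*} [Group G] {R : WreathRec X G}

/-- The symmetric set of values of `V` and their inverses. -/
def valSym (V : Set (FreeGroup ℕ)) (G : Type*) [Group G] : Set G :=
  {x | x ∈ values V G ∨ x⁻¹ ∈ values V G}

theorem values_conj {V : Set (FreeGroup ℕ)} {x : G} (hx : x ∈ values V G) (t : G) :
    t * x * t⁻¹ ∈ values V G := by
  obtain ⟨v, hv, f, rfl⟩ := hx
  refine ⟨v, hv, (MulAut.conj t).toMonoidHom.comp f, ?_⟩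
  simp [MulAut.conj_apply]

theorem valSym_conj (V : Set (FreeGroup ℕ)) : ∀ x ∈ valSym V G, ∀ t : G, t * x * t⁻¹ ∈ valSym V G := by
  rintro x (hx | hx) t
  · exact Or.inl (values_conj hx t)
  · right
    have : (t * x * t⁻¹)⁻¹ = t * x⁻¹ * t⁻¹ := by group
    rw [this]
    exact values_conj hx t

theorem valSym_inv (V : Set (FreeGroup ℕ)) : ∀ x ∈ valSym V G, x⁻¹ ∈ valSym V G := by
  rintro x (hx | hx)
  · right; simpa using hx
  · exact Or.inl hx

theorem finiteWidth_of_bound {V : Set (FreeGroup ℕ)}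
    (h : ∃ m : ℕ, ∀ g ∈ Subgroup.closure (valSym V G), g ∈ Pw (valSym V G) m) :
    FiniteWidth V G := by
  obtain ⟨m, hm⟩ := h
  refine ⟨m, fun g hg => ?_⟩
  obtain ⟨l, h1, h2, h3⟩ := hm g (Subgroup.closure_mono (fun x hx => Or.inl hx) hg)
  exact ⟨l, h1, h2, h3⟩

theorem finiteWidth_all [Finite X] [Group.FG G] (hF : R.Faithful) (hT : R.LevelTransitive)
    (hC : R.Contracting) {K : Subgroup G} (hK : R.RegularBranch K)
    (hK' : (⁅K, K⁆ : Subgroup G).FiniteIndex) {p : ℕ} [Fact p.Prime]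
    (ha : IsPGroup p R.act.range) (hp : ∀ g : G, ∃ k : ℕ, g ^ p ^ k ∈ (⁅K, K⁆ : Subgroup G))
    (V : Set (FreeGroup ℕ)) : FiniteWidth V G :=
  finiteWidth_of_bound (core hF hT hC hK hK' ha hp _ (valSym_conj V) (valSym_inv V))

theorem finiteWidth_pgroup [Finite X] [Group.FG G] (hF : R.Faithful) (hT : R.LevelTransitive)
    (hC : R.Contracting) {K : Subgroup G} (hK : R.RegularBranch K) {p : ℕ} [Fact p.Prime]
    (hp : IsPGroup p G) (V : Set (FreeGroup ℕ)) : FiniteWidth V G := by
  have ha : IsPGroup p R.act.range :=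
    hp.of_surjective R.act.rangeRestrict R.act.rangeRestrict_surjective
  have hpk : ∀ g : G, ∃ k : ℕ, g ^ p ^ k ∈ (⁅K, K⁆ : Subgroup G) := by
    intro g
    obtain ⟨k, hk⟩ := hp g
    exact ⟨k, by rw [hk]; exact Subgroup.one_mem _⟩
  refine finiteWidth_all hF hT hC hK ?_ ha hpk V
  apply commutator_finiteIndex_of_torsion hK.2.1
  intro k _
  obtain ⟨n, hn⟩ := hpk k
  exact ⟨p ^ n, pow_pos (Fact.out : p.Prime).pos n, hn⟩

end WreathRec
end Pool.Agent.Helper96.VW
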