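import Pool.Agent.Helper96.VW.Gri
import Pool.Agent.Helper96.VW.Tor

/-!
The first Grigorchuk group: branching.
-/

namespace Pool.Agent.Helper96.VW
namespace Gri

open scoped commutatorElement

/-! ### Orders -/

theorem eq_one_of {g : Grigorchuk} (h1 : R.act g = 1) (h2 : ∀ x, R.sec g x = 1) : g = 1 := by
  apply ext
  · rw [h1, map_one]
  · intro x; rw [h2, WreathRec.sec_one]

theorem not_not_one : (Equiv.boolNot * Equiv.boolNot : Equiv.Perm Bool) = 1 := by
  ext y; simp

theorem ad_pow : (a * d) ^ 4 = 1 := by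
  have h1 : R.act ((a * d) ^ 2) = 1 := by
    rw [pow_two, map_mul, map_mul, act_a, act_d, mul_one, not_not_one]
  have h2 : ∀ x, R.sec ((a * d) ^ 2) x = b := by
    intro x
    cases x <;> simp [pow_two, R.sec_mul]
  have : (a * d) ^ 4 = ((a * d) ^ 2) ^ 2 := by rw [← pow_mul]
  rw [this]
  apply eq_one_of
  · rw [map_pow, h1, one_pow]
  · intro x
    rw [WreathRec.sec_pow_of_one h1, h2, pow_two, b_mul_b]

theorem da_pow : (d * a) ^ 4 = 1 := by
  have : (d * a) ^ 4 = a * (a * d) ^ 4 * a⁻¹ := by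
    rw [← conj_pow]
    congr 1
    rw [a_inv, ← mul_assoc, a_mul_a, one_mul]
  rw [this, ad_pow]; simp

theorem ac_pow : (a * c) ^ 8 = 1 := by
  have h1 : R.act ((a * c) ^ 2) = 1 := by
    rw [pow_two, map_mul, map_mul, act_a, act_c, mul_one, not_not_one]
  have h2 : R.sec ((a * c) ^ 2) false = d * a := by simp [pow_two, R.sec_mul]
  have h3 : R.sec ((a * c) ^ 2) true = a * d := by simp [pow_two, R.sec_mul]
  have : (a * c) ^ 8 = ((a * c) ^ 2) ^ 4 := by rw [← pow_mul]
  rw [this]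
  apply eq_one_of
  · rw [map_pow, h1, one_pow]
  · intro x
    rw [WreathRec.sec_pow_of_one h1]
    cases x
    · rw [h2, da_pow]
    · rw [h3, ad_pow]

theorem ca_pow : (c * a) ^ 8 = 1 := by
  have : (c * a) ^ 8 = a * (a * c) ^ 8 * a⁻¹ := by
    rw [← conj_pow]
    congr 1
    rw [a_inv, ← mul_assoc, a_mul_a, one_mul]
  rw [this, ac_pow]; simp

theorem ab_pow : ((a * b) ^ 2) ^ 8 = 1 := by
  have h1 : R.act ((a * b) ^ 2) = 1 := by
    rw [pow_two, map_mul, map_mul, act_a, act_b, mul_one, not_not_one]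
  have h2 : R.sec ((a * b) ^ 2) false = c * a := by simp [pow_two, R.sec_mul]
  have h3 : R.sec ((a * b) ^ 2) true = a * c := by simp [pow_two, R.sec_mul]
  apply eq_one_of
  · rw [map_pow, h1, one_pow]
  · intro x
    rw [WreathRec.sec_pow_of_one h1]
    cases x
    · rw [h2, ca_pow]
    · rw [h3, ac_pow]

/-! ### The branching subgroup -/

/-- The normal closure of `(a b)^2`. -/
def K : Subgroup Grigorchuk := Subgroup.normalClosure {(a * b) ^ 2}

instance : K.Normal := Subgroup.normalClosure_normal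

theorem ab_mem : (a * b) ^ 2 ∈ K := Subgroup.subset_normalClosure (by simp)

/-- The projection to the quotient. -/
def pr : Grigorchuk →* Grigorchuk ⧸ K := QuotientGroup.mk' K

theorem pr_eq_one {g : Grigorchuk} : pr g = 1 ↔ g ∈ K := QuotientGroup.eq_one_iff g

theorem pr_ab : pr a * pr b = pr b * pr a := by
  have h : pr ((a * b) ^ 2) = 1 := pr_eq_one.mpr ab_mem
  have h1 : pr a * pr b * (pr a * pr b) = 1 := by
    rw [← map_mul, ← map_mul, ← pow_two]; exact h
  have h2 : pr a * pr b = (pr a * pr b)⁻¹ := eq_inv_of_mul_eq_one_left h1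
  rw [h2, mul_inv_rev, ← map_inv, ← map_inv, a_inv, b_inv]

theorem bd_comm : b * d = d * b := by rw [b_mul_d, d_mul_b]

theorem pr_bd : pr b * pr d = pr d * pr b := by
  rw [← map_mul, ← map_mul, bd_comm]

theorem single_mem : ⁅b, a * d * a⁆ ∈ K := by
  rw [← pr_eq_one, map_commutatorElement, commutatorElement_eq_one_iff_mul_comm, map_mul, map_mul]
  calc pr b * (pr a * pr d * pr a) = (pr b * pr a) * pr d * pr a := by simp only [mul_assoc]
    _ = pr a * (pr b * pr d) * pr a := by rw [← pr_ab]; simp only [mul_assoc]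
    _ = pr a * pr d * (pr b * pr a) := by rw [pr_bd]; simp only [mul_assoc]
    _ = pr a * pr d * pr a * pr b := by rw [← pr_ab]; simp only [mul_assoc]

theorem single_eq : ⁅b, a * d * a⁆ = b * (a * d * a) * b * (a * d * a) := by
  have : (a * d * a)⁻¹ = a * d * a := by
    rw [mul_inv_rev, mul_inv_rev, a_inv, d_inv, mul_assoc]
  rw [commutatorElement_def, b_inv, this]

theorem single_act : R.act ⁅b, a * d * a⁆ = 1 := by
  rw [single_eq]
  simp only [map_mul, act_a, act_b, act_d, one_mul, mul_one]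
  rw [not_not_one, mul_one]

theorem single_false : R.sec ⁅b, a * d * a⁆ false = (a * b) ^ 2 := by
  rw [single_eq]
  simp [R.sec_mul, pow_two, mul_assoc]

theorem single_true : R.sec ⁅b, a * d * a⁆ true = 1 := by
  rw [single_eq]
  simp [R.sec_mul, c_mul_c]

/-- Elements placed at the vertex `x` by elements of `K`. -/
def Kx (x : Bool) : Subgroup Grigorchuk where
  carrier := {k | ∃ g ∈ K, R.act g = 1 ∧ R.sec g x = k ∧ ∀ y, y ≠ x → R.sec g y = 1}
  one_mem' := ⟨1, K.one_mem, by simp, by simp, by simp⟩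
  mul_mem' := by
    rintro k l ⟨g, hg, g1, g2, g3⟩ ⟨h, hh, h1, h2, h3⟩
    refine ⟨g * h, K.mul_mem hg hh, by rw [map_mul, g1, h1, one_mul], ?_, ?_⟩
    · rw [R.sec_mul, h1]; simp [g2, h2]
    · intro y hy
      rw [R.sec_mul, h1]; simp [g3 y hy, h3 y hy]
  inv_mem' := by
    rintro k ⟨g, hg, g1, g2, g3⟩
    have hs : ∀ y, R.sec g⁻¹ y = (R.sec g y)⁻¹ := by
      intro y
      have := R.sec_mul g⁻¹ g y
      rw [inv_mul_cancel, WreathRec.sec_one, g1, Equiv.Perm.coe_one, id_eq] at this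
      exact eq_inv_of_mul_eq_one_left this.symm
    refine ⟨g⁻¹, K.inv_mem hg, by rw [map_inv, g1, inv_one], by rw [hs, g2], ?_⟩
    intro y hy
    rw [hs, g3 y hy, inv_one]

instance (x : Bool) : (Kx x).Normal := by
  constructor
  rintro k ⟨g, hg, g1, g2, g3⟩ t
  obtain ⟨s, s1, s2⟩ := exists_sec x t
  have hs : ∀ y, R.sec s⁻¹ y = (R.sec s y)⁻¹ := by
    intro y
    have := R.sec_mul s⁻¹ s y
    rw [inv_mul_cancel, WreathRec.sec_one, s1, Equiv.Perm.coe_one, id_eq] at this
    exact eq_inv_of_mul_eq_one_left this.symm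
  have hact : R.act s⁻¹ = 1 := by rw [map_inv, s1, inv_one]
  refine ⟨s * g * s⁻¹, (inferInstance : K.Normal).conj_mem g hg s, ?_, ?_, ?_⟩
  · rw [map_mul, map_mul, s1, g1, hact, one_mul, one_mul]
  · rw [R.sec_mul, R.sec_mul, hact, Equiv.Perm.coe_one, id_eq, g1, Equiv.Perm.coe_one, id_eq, hs,
      s2, g2]
  · intro y hy
    rw [R.sec_mul, R.sec_mul, hact, Equiv.Perm.coe_one, id_eq, g1, Equiv.Perm.coe_one, id_eq, hs,
      g3 y hy, mul_one, mul_inv_cancel]

theorem ab_mem_Kx (x : Bool) : (a * b) ^ 2 ∈ Kx x := by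
  cases x
  · refine ⟨⁅b, a * d * a⁆, single_mem, single_act, single_false, ?_⟩
    intro y hy
    cases y
    · exact absurd rfl hy
    · exact single_true
  · refine ⟨a * ⁅b, a * d * a⁆ * a⁻¹, (inferInstance : K.Normal).conj_mem _ single_mem a, ?_, ?_, ?_⟩
    · rw [map_mul, map_mul, single_act, mul_one, ← map_mul, mul_inv_cancel, map_one]
    · rw [a_inv, R.sec_mul, R.sec_mul]
      simp only [act_a, single_act, sec_a, Equiv.boolNot_apply, Bool.not_true, single_false,
        one_mul, mul_one]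
    · intro y hy
      cases y
      · rw [a_inv, R.sec_mul, R.sec_mul]
        simp only [act_a, single_act, sec_a, Equiv.boolNot_apply, Bool.not_false, single_true,
          mul_one]
      · exact absurd rfl hy

theorem K_le_Kx (x : Bool) : K ≤ Kx x := by
  apply Subgroup.normalClosure_le_normal
  rintro g (rfl : g = _)
  exact ab_mem_Kx x

/-! ### Finite index -/

/-- The finite set of representatives modulo `K`. -/
def Y : Set (Grigorchuk ⧸ K) :=
  {q | ∃ i j k : ℤ, q = pr b ^ i * (pr a * pr d) ^ j * pr a ^ k}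

theorem pra2 : pr a * pr a = 1 := by rw [← map_mul, a_mul_a, map_one]
theorem pra_inv : (pr a)⁻¹ = pr a := inv_eq_of_mul_eq_one_right pra2

theorem b_comm_r : Commute (pr b) (pr a * pr d) := by
  have h1 : Commute (pr b) (pr a) := pr_ab.symm
  have h2 : Commute (pr b) (pr d) := pr_bd
  exact h1.mul_right h2

theorem a_conj_r (j : ℤ) : pr a * (pr a * pr d) ^ j = (pr a * pr d) ^ (-j) * pr a := by
  have h : pr a * (pr a * pr d) * (pr a)⁻¹ = (pr a * pr d)⁻¹ := by
    rw [mul_inv_rev, ← map_inv pr d, d_inv]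
    calc pr a * (pr a * pr d) * (pr a)⁻¹ = (pr a * pr a) * pr d * (pr a)⁻¹ := by
          simp only [mul_assoc]
      _ = pr d * (pr a)⁻¹ := by rw [pra2, one_mul]
  have h2 : pr a * (pr a * pr d) ^ j * (pr a)⁻¹ = (pr a * pr d) ^ (-j) := by
    rw [← conj_zpow, h, inv_zpow, zpow_neg]
  rw [← h2, inv_mul_cancel_right]

theorem mem_Y (g : Grigorchuk) : pr g ∈ Y := by
  obtain ⟨l, rfl⟩ := exists_ev g
  induction l with
  | nil => exact ⟨0, 0, 0, by simp⟩
  | cons t l ih =>
    rw [ev_cons, map_mul]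
    have hA : ∀ q ∈ Y, pr a * q ∈ Y := by
      rintro q ⟨i, j, k, rfl⟩
      refine ⟨i, -j, 1 + k, ?_⟩
      have h1 : Commute (pr a) (pr b ^ i) := (show Commute (pr a) (pr b) from pr_ab).zpow_right i
      calc pr a * (pr b ^ i * (pr a * pr d) ^ j * pr a ^ k)
          = (pr a * pr b ^ i) * (pr a * pr d) ^ j * pr a ^ k := by simp only [mul_assoc]
        _ = pr b ^ i * (pr a * (pr a * pr d) ^ j) * pr a ^ k := by
            rw [h1.eq]; simp only [mul_assoc]
        _ = pr b ^ i * (pr a * pr d) ^ (-j) * (pr a * pr a ^ k) := by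
            rw [a_conj_r]; simp only [mul_assoc]
        _ = _ := by rw [zpow_one_add]
    have hB : ∀ q ∈ Y, pr b * q ∈ Y := by
      rintro q ⟨i, j, k, rfl⟩
      refine ⟨1 + i, j, k, ?_⟩
      rw [zpow_one_add]; simp only [mul_assoc]
    have hR : ∀ q ∈ Y, pr a * pr d * q ∈ Y := by
      rintro q ⟨i, j, k, rfl⟩
      refine ⟨i, 1 + j, k, ?_⟩
      have h1 : Commute (pr a * pr d) (pr b ^ i) := b_comm_r.symm.zpow_right i
      calc pr a * pr d * (pr b ^ i * (pr a * pr d) ^ j * pr a ^ k)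
          = (pr a * pr d * pr b ^ i) * (pr a * pr d) ^ j * pr a ^ k := by simp only [mul_assoc]
        _ = pr b ^ i * ((pr a * pr d) * (pr a * pr d) ^ j) * pr a ^ k := by
            rw [h1.eq]; simp only [mul_assoc]
        _ = _ := by rw [zpow_one_add]
    have hD : ∀ q ∈ Y, pr d * q ∈ Y := by
      intro q hq
      have h1 := hA _ (hR _ hq)
      have e : pr a * (pr a * pr d * q) = pr d * q := by
        calc pr a * (pr a * pr d * q) = (pr a * pr a) * pr d * q := by simp only [mul_assoc]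
          _ = pr d * q := by rw [pra2, one_mul]
      rwa [e] at h1
    cases t with
    | a => exact hA _ ih
    | b => exact hB _ ih
    | c =>
      change pr c * _ ∈ Y
      rw [← b_mul_d, map_mul, mul_assoc]
      exact hB _ (hD _ ih)
    | d => exact hD _ ih

theorem Y_finite : Y.Finite := by
  have hb : IsOfFinOrder (pr b) := by
    rw [isOfFinOrder_iff_pow_eq_one]
    exact ⟨2, by norm_num, by rw [pow_two, ← map_mul, b_mul_b, map_one]⟩
  have ha : IsOfFinOrder (pr a) := by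
    rw [isOfFinOrder_iff_pow_eq_one]
    exact ⟨2, by norm_num, by rw [pow_two, pra2]⟩
  have hr : IsOfFinOrder (pr a * pr d) := by
    rw [isOfFinOrder_iff_pow_eq_one]
    exact ⟨4, by norm_num, by rw [← map_mul, ← map_pow, ad_pow, map_one]⟩
  have hb' : Finite (Subgroup.zpowers (pr b)) := finite_zpowers.mpr hb
  have ha' : Finite (Subgroup.zpowers (pr a)) := finite_zpowers.mpr ha
  have hr' : Finite (Subgroup.zpowers (pr a * pr d)) := finite_zpowers.mpr hr
  apply Set.Finite.subset (Set.Finite.image2 (fun x y => x * y)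
    (Set.Finite.image2 (fun x y => x * y) (Set.toFinite (Subgroup.zpowers (pr b) : Set _))
      (Set.toFinite (Subgroup.zpowers (pr a * pr d) : Set _)))
    (Set.toFinite (Subgroup.zpowers (pr a) : Set _)))
  rintro q ⟨i, j, k, rfl⟩
  exact ⟨_, ⟨_, ⟨i, rfl⟩, _, ⟨j, rfl⟩, rfl⟩, _, ⟨k, rfl⟩, rfl⟩

theorem K_finiteIndex : K.FiniteIndex := by
  have : Finite (Grigorchuk ⧸ K) := by
    rw [← Set.finite_univ_iff]
    apply Y_finite.subset
    intro q _
    obtain ⟨g, rfl⟩ := QuotientGroup.mk_surjective q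
    exact mem_Y g
  exact Subgroup.finiteIndex_of_finite_quotient

theorem regularBranch : R.RegularBranch K := by
  refine ⟨inferInstance, K_finiteIndex, ?_⟩
  intro k hk x
  obtain ⟨g, hg, g1, g2, g3⟩ := K_le_Kx x hk
  exact ⟨g, hg, fun y => by rw [g1]; rfl, g2, g3⟩

/-! ### Exponents -/

theorem q_pow_four (g : Grigorchuk) : g ^ 4 ∈ K := by
  rw [← pr_eq_one, map_pow]
  obtain ⟨i, j, k, h⟩ := mem_Y g
  rw [h]
  have hb2 : (pr b) ^ (2 : ℤ) = 1 := by
    rw [zpow_ofNat, pow_two, ← map_mul, b_mul_b, map_one]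
  have ha2 : (pr a) ^ (2 : ℤ) = 1 := by rw [zpow_ofNat, pow_two, pra2]
  have hr4 : (pr a * pr d) ^ (4 : ℤ) = 1 := by
    rw [zpow_ofNat, ← map_mul, ← map_pow, ad_pow, map_one]
  have hcb : ∀ q, q = pr a ∨ q = pr a * pr d → Commute (pr b ^ i) q := by
    rintro q (rfl | rfl)
    · exact (show Commute (pr b) (pr a) from pr_ab.symm).zpow_left i
    · exact b_comm_r.zpow_left i
  have hc : Commute (pr b ^ i) ((pr a * pr d) ^ j * pr a ^ k) :=
    ((hcb _ (Or.inr rfl)).zpow_right j).mul_right ((hcb _ (Or.inl rfl)).zpow_right k)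
  rw [mul_assoc, hc.mul_pow]
  have h1 : (pr b ^ i) ^ 4 = 1 := by
    rw [← zpow_natCast, ← zpow_mul, show i * ((4 : ℕ) : ℤ) = 2 * (2 * i) by push_cast; ring,
      zpow_mul, hb2, one_zpow]
  rw [h1, one_mul]
  rcases Int.even_or_odd' k with ⟨m, rfl | rfl⟩
  · rw [zpow_mul, ha2, one_zpow, mul_one, ← zpow_natCast, ← zpow_mul,
      show j * ((4 : ℕ) : ℤ) = 4 * j by push_cast; ring, zpow_mul, hr4, one_zpow]
  · rw [zpow_add, zpow_mul, ha2, one_zpow, one_mul, zpow_one]
    have h2 : ((pr a * pr d) ^ j * pr a) * ((pr a * pr d) ^ j * pr a) = 1 := by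
      calc ((pr a * pr d) ^ j * pr a) * ((pr a * pr d) ^ j * pr a)
          = (pr a * pr d) ^ j * (pr a * (pr a * pr d) ^ j) * pr a := by simp only [mul_assoc]
        _ = ((pr a * pr d) ^ j * (pr a * pr d) ^ (-j)) * (pr a * pr a) := by
            rw [a_conj_r]; simp only [mul_assoc]
        _ = 1 := by rw [pra2, mul_one, ← zpow_add]; simp
    rw [show 4 = 2 * 2 by norm_num, pow_mul, pow_two ((pr a * pr d) ^ j * pr a), h2, one_pow]

theorem K_pow_eight {k : Grigorchuk} (hk : k ∈ K) : k ^ 8 ∈ (⁅K, K⁆ : Subgroup Grigorchuk) := by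
  have hn : (⁅K, K⁆ : Subgroup Grigorchuk).Normal := Subgroup.commutator_normal K K
  have key : k ∈ K ∧ k ^ 8 ∈ (⁅K, K⁆ : Subgroup Grigorchuk) := by
    unfold K at hk
    induction hk using Subgroup.closure_induction with
    | mem x hx =>
      obtain ⟨y, hy, hyx⟩ := Group.mem_conjugatesOfSet_iff.mp hx
      rw [Set.mem_singleton_iff] at hy
      subst hy
      obtain ⟨t, ht⟩ := isConj_iff.mp hyx
      subst ht
      refine ⟨(inferInstance : K.Normal).conj_mem _ ab_mem t, ?_⟩
      rw [conj_pow, ab_pow, mul_one, mul_inv_cancel]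
      exact Subgroup.one_mem _
    | one => exact ⟨K.one_mem, by rw [one_pow]; exact Subgroup.one_mem _⟩
    | mul x y _ _ hx hy =>
      refine ⟨K.mul_mem hx.1 hy.1, ?_⟩
      let ρ : Grigorchuk →* Grigorchuk ⧸ (⁅K, K⁆ : Subgroup Grigorchuk) := QuotientGroup.mk' _
      have hρ : ∀ g, ρ g = 1 ↔ g ∈ (⁅K, K⁆ : Subgroup Grigorchuk) :=
        fun g => QuotientGroup.eq_one_iff g
      have hc : Commute (ρ x) (ρ y) := by
        have : ρ ⁅x, y⁆ = 1 := (hρ _).mpr (Subgroup.commutator_mem_commutator hx.1 hy.1)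
        rwa [map_commutatorElement, commutatorElement_eq_one_iff_mul_comm] at this
      rw [← hρ, map_pow, map_mul, hc.mul_pow, ← map_pow, ← map_pow, (hρ _).mpr hx.2,
        (hρ _).mpr hy.2, one_mul]
    | inv x _ hx =>
      exact ⟨K.inv_mem hx.1, by rw [inv_pow]; exact Subgroup.inv_mem _ hx.2⟩
  exact key.2

theorem commutator_K_finiteIndex : (⁅K, K⁆ : Subgroup Grigorchuk).FiniteIndex := by
  apply commutator_finiteIndex_of_torsion K_finiteIndex
  intro k hk
  exact ⟨8, by norm_num, K_pow_eight hk⟩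

theorem finiteWidth (V : Set (FreeGroup ℕ)) : FiniteWidth V Grigorchuk := by
  have : Fact (Nat.Prime 2) := ⟨Nat.prime_two⟩
  apply WreathRec.finiteWidth_all faithful levelTransitive contracting regularBranch
    commutator_K_finiteIndex (p := 2)
  · intro q
    refine ⟨1, ?_⟩
    apply Subtype.ext
    rw [Subgroup.coe_pow]
    have : ∀ σ : Equiv.Perm Bool, σ ^ 2 ^ 1 = 1 := by decide
    exact this q.1
  · intro g
    refine ⟨5, ?_⟩
    have : g ^ 2 ^ 5 = (g ^ 4) ^ 8 := by rw [← pow_mul]; norm_num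
    rw [this]
    exact K_pow_eight (q_pow_four g)

end Gri
end Pool.Agent.Helper96.VW
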