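import Pool.Agent.Helper96.VW.Fin

/-!
Finite width of normal subsets of contracting regular branch groups.
-/

namespace Pool.Agent.Helper96.VW

open scoped commutatorElement

section Aux

variable {G : Type*} [Group G]

theorem Pw_finite {B : Set G} (hB : B.Finite) : ∀ m : ℕ, (Pw B m).Finite := by
  intro m
  induction m with
  | zero =>
    apply (Set.finite_singleton (1 : G)).subset
    rintro g ⟨l, hl, _, rfl⟩
    have : l = [] := List.length_eq_zero_iff.mp (Nat.le_zero.mp hl)
    subst this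
    simp
  | succ m ih =>
    apply ((Set.finite_singleton (1 : G)).union (Set.Finite.image2 (fun x y => x * y) hB ih)).subset
    rintro g ⟨l, hl, h1, rfl⟩
    cases l with
    | nil => left; simp
    | cons x l =>
      right
      refine ⟨x, h1 x (by simp), l.prod, ⟨l, by simpa using hl, fun y hy => h1 y (by simp [hy]), rfl⟩,
        by simp⟩

/-- A finitely generated subgroup contained in `closure S` is contained in the closure of a
finite list of elements of `S`. -/
theorem exists_list_of_finite {S : Set G} (hSi : ∀ x ∈ S, x⁻¹ ∈ S) {T : Set G} (hT : T.Finite)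
    (hTS : T ⊆ Subgroup.closure S) :
    ∃ ls : List G, (∀ x ∈ ls, x ∈ S) ∧ ∀ t ∈ T, t ∈ Subgroup.closure {x | x ∈ ls} := by
  induction T, hT using Set.Finite.induction_on with
  | empty => exact ⟨[], by simp, by simp⟩
  | @insert a s _ _ ih =>
    obtain ⟨ls, h1, h2⟩ := ih (fun x hx => hTS (Set.mem_insert_of_mem _ hx))
    obtain ⟨m, l, _, hl, hla⟩ := exists_Pw_of_mem_closure hSi (hTS (Set.mem_insert a s))
    refine ⟨l ++ ls, ?_, ?_⟩
    · intro x hx
      rcases List.mem_append.mp hx with h | h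
      · exact hl x h
      · exact h1 x h
    · intro t ht
      rcases Set.mem_insert_iff.mp ht with rfl | h
      · rw [← hla]
        apply Subgroup.list_prod_mem
        intro x hx
        exact Subgroup.subset_closure (by simp [hx])
      · exact Subgroup.closure_mono (fun x hx => by
          simp only [Set.mem_ofPred_eq] at hx
          simp [hx]) (h2 t h)

theorem Pw_ofFn {S : Set G} {m : ℕ} : ∀ {e : ℕ} (f : Fin e → G), (∀ i, f i ∈ Pw S m) →
    (List.ofFn f).prod ∈ Pw S (m * e) := by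
  intro e
  induction e with
  | zero => intro f _; simpa using one_mem_Pw S 0
  | succ e ih =>
    intro f hf
    rw [List.ofFn_succ, List.prod_cons, show m * (e + 1) = m + m * e by ring]
    exact Pw_mul (hf 0) (ih _ (fun i => hf _))

end Aux

namespace WreathRec

variable {X G : Type*} [Group G] {R : WreathRec X G}

/-- All level `n` sections of `g` lie in `B`. -/
def SecIn (R : WreathRec X G) (n : ℕ) (B : Set G) (g : G) : Prop :=
  ∀ w : List X, w.length = n → R.secW g w ∈ B

theorem SecIn.mul {n : ℕ} {B : Set G} {a b : ℕ} {g h : G} (hg : R.SecIn n (Pw B a) g)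
    (hh : R.SecIn n (Pw B b) h) : R.SecIn n (Pw B (a + b)) (g * h) := by
  intro w hw
  rw [secW_mul]
  exact Pw_mul (hg _ (by simp [hw])) (hh w hw)

theorem SecIn.inv {n : ℕ} {B : Set G} (hB : ∀ x ∈ B, x⁻¹ ∈ B) {a : ℕ} {g : G}
    (hg : R.SecIn n (Pw B a) g) : R.SecIn n (Pw B a) g⁻¹ := by
  intro w hw
  rw [secW_inv]
  exact Pw_inv hB (hg _ (by simp [hw]))

theorem SecIn.comm {n : ℕ} {B : Set G} (hB : ∀ x ∈ B, x⁻¹ ∈ B) {g h : G}
    (hg : R.SecIn n (Pw B 1) g) (hh : R.SecIn n (Pw B 1) h) : R.SecIn n (Pw B 4) ⁅g, h⁆ := by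
  rw [commutatorElement_def]
  exact ((hg.mul hh).mul (hg.inv hB)).mul (hh.inv hB)

theorem SecIn.ofFn {n : ℕ} {B : Set G} {m : ℕ} : ∀ {e : ℕ} (f : Fin e → G),
    (∀ i, R.SecIn n (Pw B m) (f i)) → R.SecIn n (Pw B (m * e)) (List.ofFn f).prod := by
  intro e
  induction e with
  | zero =>
    intro f _ w _
    simpa using one_mem_Pw B 0
  | succ e ih =>
    intro f hf
    rw [List.ofFn_succ, List.prod_cons, show m * (e + 1) = m + m * e by ring]
    exact (hf 0).mul (ih _ (fun i => hf _))

/-- Main theorem: every normal symmetric subset of a contracting regular branch group (with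
the stated finiteness and `p`-group conditions) has finite width. -/
theorem core [Finite X] [Group.FG G] (hF : R.Faithful) (hT : R.LevelTransitive)
    (hC : R.Contracting) {K : Subgroup G} (hK : R.RegularBranch K)
    (hK' : (⁅K, K⁆ : Subgroup G).FiniteIndex) {p : ℕ} [Fact p.Prime]
    (ha : IsPGroup p R.act.range) (hp : ∀ g : G, ∃ k : ℕ, g ^ p ^ k ∈ (⁅K, K⁆ : Subgroup G))
    (S : Set G) (hSc : ∀ x ∈ S, ∀ t : G, t * x * t⁻¹ ∈ S) (hSi : ∀ x ∈ S, x⁻¹ ∈ S) :
    ∃ m : ℕ, ∀ g ∈ Subgroup.closure S, g ∈ Pw S m := by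
  classical
  by_cases hS1 : ∀ x ∈ S, x = 1
  · refine ⟨0, fun g hg => ?_⟩
    have h1 : Subgroup.closure S ≤ ⊥ := by
      rw [Subgroup.closure_le]
      intro x hx
      exact Subgroup.mem_bot.mpr (hS1 x hx)
    rw [Subgroup.mem_bot.mp (h1 hg)]
    exact one_mem_Pw S 0
  push Not at hS1
  obtain ⟨h, hhS, hh1⟩ := hS1
  obtain ⟨v, hv⟩ := hF.exists_moved hh1
  have hX : Nonempty X := by
    cases v with
    | nil => simp at hv
    | cons x _ => exact ⟨x⟩
  set H : Subgroup G := Subgroup.closure S with hHdef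
  have hHn : H.Normal := by
    constructor
    intro x hx t
    obtain ⟨m, hm⟩ := exists_Pw_of_mem_closure hSi hx
    exact Pw_subset_closure (Pw_conj hSc hm t)
  have hHb : H ≠ ⊥ := by
    intro hc
    have : h ∈ H := Subgroup.subset_closure hhS
    rw [hc, Subgroup.mem_bot] at this
    exact hh1 this
  have hHfi : H.FiniteIndex := normal_finiteIndex hF hT hK hK' hHb
  have hH'fi : (⁅H, H⁆ : Subgroup G).FiniteIndex := commutator_finiteIndex hF hT hK hK' hHb
  have hKn : K.Normal := hK.1
  have hK'n : (⁅K, K⁆ : Subgroup G).Normal := Subgroup.commutator_normal K K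
  have hK'K : (⁅K, K⁆ : Subgroup G) ≤ K := Subgroup.commutator_le_left K K
  -- finitely many generators from `S`
  have hHfg : Group.FG H := Subgroup.fg_of_index_ne_zero H
  obtain ⟨T0, hT0⟩ := (Group.fg_iff_subgroup_fg H).mp hHfg
  obtain ⟨ls, hlsS, hlsT⟩ := exists_list_of_finite (S := S) hSi T0.finite_toSet (by
    intro x hx
    rw [← hHdef, ← hT0]
    exact Subgroup.subset_closure hx)
  have hlsH : Subgroup.closure {x | x ∈ ls} = H := by
    apply le_antisymm
    · rw [Subgroup.closure_le]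
      intro x hx
      exact Subgroup.subset_closure (hlsS x hx)
    · rw [← hT0, Subgroup.closure_le]
      intro x hx
      exact hlsT x hx
  set e := ls.length with he
  have hmemH : ∀ i : Fin e, ls.get i ∈ H := fun i =>
    Subgroup.subset_closure (hlsS _ (List.get_mem ls i))
  let hs : Fin e → H := fun i => ⟨ls.get i, hmemH i⟩
  have hsgen : Subgroup.closure (Set.range hs) = ⊤ := by
    apply Subgroup.map_injective H.subtype_injective
    rw [MonoidHom.map_closure]
    have e1 : (H.subtype '' Set.range hs) = {x | x ∈ ls} := by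
      ext x
      constructor
      · rintro ⟨_, ⟨i, rfl⟩, rfl⟩
        exact List.get_mem ls i
      · intro hx
        obtain ⟨i, hi⟩ := List.get_of_mem hx
        exact ⟨hs i, ⟨i, rfl⟩, hi⟩
    rw [e1, hlsH, ← MonoidHom.range_eq_map, Subgroup.range_subtype]
  -- the constants
  obtain ⟨M, hM⟩ := commutator_levelSub hF hT hK hSc hSi hhS hv
  obtain ⟨N, hNfin, hN⟩ := hC
  let out : G → G := fun g => (QuotientGroup.mk g : G ⧸ (⁅K, K⁆ : Subgroup G)).out
  let T : Set G := Set.range (fun q : G ⧸ (⁅K, K⁆ : Subgroup G) => q.out)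
  have hTfin : T.Finite := Set.finite_range _
  let B0 : Set G := N ∪ T
  have hB0 : B0.Finite := hNfin.union hTfin
  let B : Set G := B0 ∪ (fun x => x⁻¹) '' B0
  have hBfin : B.Finite := hB0.union (hB0.image _)
  have hBi : ∀ x ∈ B, x⁻¹ ∈ B := by
    rintro x (hx | ⟨y, hy, rfl⟩)
    · exact Or.inr ⟨x, hx, rfl⟩
    · left; simpa using hy
  obtain ⟨c0, hc0⟩ := exists_CL_uniform (K := K) (Pw_finite hBfin (1 + 4 * e))
  -- bound for the commutator subgroup
  have hcommut : ∀ k ∈ (⁅H, H⁆ : Subgroup G), k ∈ Pw S (c0 * M + 2 * e) := by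
    intro k hk
    have hkH : k ∈ H := Subgroup.commutator_le_left H H hk
    obtain ⟨nk, hnk⟩ := hN k
    choose nh hnh using fun i : Fin e => hN (ls.get i)
    obtain ⟨n1, hn1⟩ := Finite.exists_le nh
    set n : ℕ := max v.length (max nk n1) with hn
    have hnv : v.length ≤ n := le_max_left _ _
    have hnk' : ∀ w : List X, w.length = n → R.secW k w ∈ N := fun w hw =>
      hnk w (by rw [hw]; exact (le_max_left _ _).trans (le_max_right _ _))
    have hnh' : ∀ (i : Fin e) (w : List X), w.length = n → R.secW (ls.get i) w ∈ N :=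
      fun i w hw => hnh i w (by
        rw [hw]; exact (hn1 i).trans ((le_max_right _ _).trans (le_max_right _ _)))
    have hMn : ∀ P ∈ R.levelSub n K, ∀ Q ∈ R.levelSub n K, ⁅P, Q⁆ ∈ Pw S M := fun P hP Q hQ =>
      hM P (hK.levelSub_anti hF hnv hP) Q (hK.levelSub_anti hF hnv hQ)
    set L : Subgroup G := R.levelSub n (⁅K, K⁆ : Subgroup G) with hL
    have hLn : L.Normal := R.levelSub_normal n _
    have hLfi : L.FiniteIndex := levelSub_finiteIndex n _
    have hpP : IsPGroup p (H ⧸ L.subgroupOf H) := by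
      intro q
      obtain ⟨q, rfl⟩ := QuotientGroup.mk_surjective q
      obtain ⟨j, hj⟩ := exists_pow_mem_levelSub ha hp n (q : G)
      refine ⟨j, ?_⟩
      rw [← QuotientGroup.mk_pow, QuotientGroup.eq_one_iff, Subgroup.mem_subgroupOf]
      simpa using hj
    have hPnil : Group.IsNilpotent (H ⧸ L.subgroupOf H) := hpP.isNilpotent
    let π : H →* H ⧸ L.subgroupOf H := QuotientGroup.mk' (L.subgroupOf H)
    have hπs : Function.Surjective π := QuotientGroup.mk'_surjective _
    have hgenP : Subgroup.closure (Set.range (fun i => π (hs i))) = ⊤ := by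
      have : Set.range (fun i => π (hs i)) = π '' Set.range hs := by
        rw [← Set.range_comp]; rfl
      rw [this, ← MonoidHom.map_closure, hsgen, ← MonoidHom.range_eq_map,
        MonoidHom.range_eq_top.mpr hπs]
    have hkc : (⟨k, hkH⟩ : H) ∈ _root_.commutator H := by
      have h1 : k ∈ (_root_.commutator H).map H.subtype := by
        rw [Subgroup.map_subtype_commutator]; exact hk
      obtain ⟨k', hk', hk'e⟩ := h1
      have : k' = ⟨k, hkH⟩ := Subtype.ext hk'e
      rwa [← this]
    have hkcP : π ⟨k, hkH⟩ ∈ _root_.commutator (H ⧸ L.subgroupOf H) := by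
      have h1 : π ⟨k, hkH⟩ ∈ (_root_.commutator H).map π := ⟨_, hkc, rfl⟩
      rw [_root_.commutator_def, Subgroup.map_commutator] at h1
      exact Subgroup.commutator_mono le_top le_top h1
    obtain ⟨ybar, hybar⟩ := exists_prod_comm_of_nilpotent (fun i => π (hs i)) hgenP _ hkcP
    choose y hy using fun i => hπs (ybar i)
    -- normalise the sections of `y`
    have hl : ∀ i : Fin e, ∃ l ∈ L, ∀ w : List X, w.length = n →
        R.secW ((y i : G) * l) w ∈ T := by
      intro i
      have hker : ∀ g : G, ∃ κ : (⁅K, K⁆ : Subgroup G), out g = g * κ := fun g =>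
        QuotientGroup.mk_out_eq_mul _ g
      choose κ hκ using hker
      obtain ⟨l, hlK, hl⟩ := hK.exists_family n (fun w => (κ (R.secW (y i : G) w) : G))
        (fun w _ => hK'K (κ (R.secW (y i : G) w)).2)
      refine ⟨l, fun w hw => ⟨(hl w hw).1, ?_⟩, ?_⟩
      · rw [(hl w hw).2]; exact (κ (R.secW (y i : G) w)).2
      · intro w hw
        rw [secW_mul, (hl w hw).1, (hl w hw).2, ← hκ]
        exact ⟨_, rfl⟩
    choose l hlL hlT using hl
    let y' : Fin e → G := fun i => (y i : G) * l i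
    set C : G := (List.ofFn fun i => ⁅y' i, ls.get i⁆).prod with hCdef
    have hCL : C⁻¹ * k ∈ L := by
      have h1 : (List.ofFn fun i => ⁅y i, hs i⁆).prod⁻¹ * ⟨k, hkH⟩ ∈ L.subgroupOf H := by
        rw [← QuotientGroup.eq_one_iff]
        change π _ = 1
        rw [map_mul, map_inv, inv_mul_eq_one, ← hybar, map_list_prod, List.map_ofFn]
        congr 2
        funext i
        change π ⁅y i, hs i⁆ = ⁅ybar i, π (hs i)⁆
        rw [map_commutatorElement, hy]
      rw [Subgroup.mem_subgroupOf] at h1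
      have h2 : ((((List.ofFn fun i => ⁅y i, hs i⁆).prod⁻¹ * ⟨k, hkH⟩ : H)) : G) =
          ((List.ofFn fun i => ⁅(y i : G), ls.get i⁆).prod)⁻¹ * k := by
        have : ((List.ofFn fun i => ⁅y i, hs i⁆).prod : G) =
            (List.ofFn fun i => ⁅(y i : G), ls.get i⁆).prod := by
          change H.subtype _ = _
          rw [map_list_prod, List.map_ofFn]
          congr 2
        rw [Subgroup.coe_mul, Subgroup.coe_inv, this]
      rw [h2] at h1
      rw [← QuotientGroup.eq_one_iff] at h1 ⊢
      let ρ : G →* G ⧸ L := QuotientGroup.mk' L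
      change ρ _ = 1 at h1
      change ρ _ = 1
      rw [map_mul, map_inv, inv_mul_eq_one] at h1 ⊢
      rw [← h1, hCdef, map_list_prod, map_list_prod, List.map_ofFn, List.map_ofFn]
      congr 2
      funext i
      change ρ ⁅(y i : G) * l i, ls.get i⁆ = ρ ⁅(y i : G), ls.get i⁆
      rw [map_commutatorElement, map_commutatorElement, map_mul]
      have : ρ (l i) = 1 := (QuotientGroup.eq_one_iff _).mpr (hlL i)
      rw [this, mul_one]
    have hzL : k * C⁻¹ ∈ L := by
      have := hLn.conj_mem _ hCL C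
      have e1 : C * (C⁻¹ * k) * C⁻¹ = k * C⁻¹ := by group
      rwa [e1] at this
    have hCS : C ∈ Pw S (2 * e) := by
      apply Pw_ofFn
      intro i
      rw [commutatorElement_def]
      exact Pw_mul (m := 1) (n := 1) (mem_Pw_one (hSc _ (hlsS _ (List.get_mem ls i)) _))
        (mem_Pw_one (hSi _ (hlsS _ (List.get_mem ls i))))
    have hNB : ∀ x ∈ N, x ∈ Pw B 1 := fun x hx => mem_Pw_one (Or.inl (Or.inl hx))
    have hTB : ∀ x ∈ T, x ∈ Pw B 1 := fun x hx => mem_Pw_one (Or.inl (Or.inr hx))
    have hCB : R.SecIn n (Pw B (4 * e)) C := by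
      apply SecIn.ofFn
      intro i
      apply SecIn.comm hBi
      · exact fun w hw => hTB _ (hlT i w hw)
      · exact fun w hw => hNB _ (hnh' i w hw)
    have hzB : R.SecIn n (Pw B (1 + 4 * e)) (k * C⁻¹) :=
      SecIn.mul (fun w hw => hNB _ (hnk' w hw)) (hCB.inv hBi)
    have hzS : k * C⁻¹ ∈ Pw S (c0 * M) := by
      apply mem_Pw_of_sections hF hK hMn c0
      intro w hw
      exact ⟨(hzL w hw).1, hc0 _ (hzB w hw) (hzL w hw).2⟩
    have e2 : k = (k * C⁻¹) * C := by group
    rw [e2]
    exact Pw_mul hzS hCS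
  -- finitely many cosets
  have hrep : ∀ q : G ⧸ (⁅H, H⁆ : Subgroup G), ∃ (r : G) (m : ℕ),
      ∀ g ∈ H, (QuotientGroup.mk g : G ⧸ (⁅H, H⁆ : Subgroup G)) = q →
        r ∈ Pw S m ∧ r⁻¹ * g ∈ (⁅H, H⁆ : Subgroup G) := by
    intro q
    by_cases hq : ∃ g ∈ H, (QuotientGroup.mk g : G ⧸ (⁅H, H⁆ : Subgroup G)) = q
    · obtain ⟨r, hrH, hrq⟩ := hq
      obtain ⟨m, hm⟩ := exists_Pw_of_mem_closure hSi hrH
      refine ⟨r, m, fun g _ hgq => ⟨hm, ?_⟩⟩
      rw [← hrq] at hgq
      exact QuotientGroup.eq.mp hgq.symm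
    · refine ⟨1, 0, fun g hg hgq => absurd ⟨g, hg, hgq⟩ hq⟩
  choose r m hrm using hrep
  obtain ⟨m0, hm0⟩ := Finite.exists_le m
  refine ⟨m0 + (c0 * M + 2 * e), ?_⟩
  intro g hg
  obtain ⟨h1, h2⟩ := hrm (QuotientGroup.mk g) g hg rfl
  have e1 : g = r (QuotientGroup.mk g) * ((r (QuotientGroup.mk g))⁻¹ * g) := by group
  rw [e1]
  exact Pw_mul (Pw_mono (hm0 _) h1) (hcommut _ h2)

end WreathRec
end Pool.Agent.Helper96.VW
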