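import Pool.Agent.Helper96.VW.Width

/-!
Commutators in nilpotent groups: with generators `h i`, every element of the commutator subgroup
is a product of one commutator `⁅y i, h i⁆` for each `i`.
-/

namespace Pool.Agent.Helper96.VW

open scoped commutatorElement IsMulCommutative

theorem prod_ofFn_central {Q : Type*} [Group Q] :
    ∀ (e : ℕ) (c : Fin e → Subgroup.center Q) (x : Fin e → Q),
    (List.ofFn fun i => (c i : Q) * x i).prod =
      ((∏ i, c i : Subgroup.center Q) : Q) * (List.ofFn x).prod := by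
  intro e
  induction e with
  | zero => intro c x; simp
  | succ e ih =>
    intro c x
    rw [List.ofFn_succ, List.prod_cons, ih, List.ofFn_succ, List.prod_cons, Fin.prod_univ_succ,
      Subgroup.coe_mul]
    have := (Subgroup.mem_center_iff.mp (∏ i : Fin e, c (Fin.succ i)).2) (x 0)
    calc (c 0 : Q) * x 0 * (((∏ i : Fin e, c (Fin.succ i) : Subgroup.center Q) : Q) *
          (List.ofFn fun i => x (Fin.succ i)).prod)
        = (c 0 : Q) * (x 0 * ((∏ i : Fin e, c (Fin.succ i) : Subgroup.center Q) : Q)) *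
          (List.ofFn fun i => x (Fin.succ i)).prod := by group
      _ = _ := by rw [this]; group

section Nil

variable {P : Type*} [Group P]

theorem nil_step {L M : Subgroup P} [M.Normal] (hLM : ⁅⁅L, (⊤ : Subgroup P)⁆, (⊤ : Subgroup P)⁆ ≤ M)
    {e : ℕ} (hs : Fin e → P) (hgen : Subgroup.closure (Set.range hs) = ⊤)
    {z : P} (hz : z ∈ ⁅L, (⊤ : Subgroup P)⁆) (y : Fin e → P) :
    ∃ t : Fin e → P, ((List.ofFn fun i => ⁅y i * t i, hs i⁆).prod)⁻¹ *
      ((List.ofFn fun i => ⁅y i, hs i⁆).prod * z) ∈ M := by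
  classical
  let π := QuotientGroup.mk' M
  have hcen : ∀ u ∈ ⁅L, (⊤ : Subgroup P)⁆, π u ∈ Subgroup.center (P ⧸ M) := by
    intro u hu
    rw [Subgroup.mem_center_iff]
    intro q
    obtain ⟨q, rfl⟩ := QuotientGroup.mk'_surjective M q
    have h1 : ⁅u, q⁆ ∈ M := hLM (Subgroup.commutator_mem_commutator hu (Subgroup.mem_top q))
    have h2 : π ⁅u, q⁆ = 1 := (QuotientGroup.eq_one_iff _).mpr h1
    rw [map_commutatorElement, commutatorElement_eq_one_iff_mul_comm] at h2
    exact h2.symm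
  have hmem : ∀ t ∈ L, ∀ g : P, ⁅t, g⁆ ∈ ⁅L, (⊤ : Subgroup P)⁆ := fun t ht g =>
    Subgroup.commutator_mem_commutator ht (Subgroup.mem_top g)
  let phi : L → P → Subgroup.center (P ⧸ M) := fun t g => ⟨π ⁅(t : P), g⁆, hcen _ (hmem t t.2 g)⟩
  have conjc : ∀ u ∈ ⁅L, (⊤ : Subgroup P)⁆, ∀ x : P, π (x * u * x⁻¹) = π u := by
    intro u hu x
    have := (Subgroup.mem_center_iff.mp (hcen u hu)) (π x)
    rw [map_mul, map_mul, this, mul_assoc, ← map_mul, mul_inv_cancel, map_one, mul_one]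
  have phi_mulL : ∀ (t t' : L) (g : P), phi (t * t') g = phi t g * phi t' g := by
    intro t t' g
    apply Subtype.ext
    have e1 : ⁅((t * t' : L) : P), g⁆ = ((t : P) * ⁅(t' : P), g⁆ * (t : P)⁻¹) * ⁅(t : P), g⁆ := by
      simp only [commutatorElement_def, Subgroup.coe_mul]; group
    change π ⁅((t * t' : L) : P), g⁆ = π ⁅(t : P), g⁆ * π ⁅(t' : P), g⁆
    rw [e1, map_mul, conjc _ (hmem _ t'.2 g)]
    exact ((Subgroup.mem_center_iff.mp (hcen _ (hmem _ t'.2 g))) _).symm
  have phi_mulR : ∀ (t : L) (g g' : P), phi t (g * g') = phi t g * phi t g' := by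
    intro t g g'
    apply Subtype.ext
    have e1 : ⁅(t : P), g * g'⁆ = ⁅(t : P), g⁆ * (g * ⁅(t : P), g'⁆ * g⁻¹) := by
      simp only [commutatorElement_def]; group
    change π ⁅(t : P), g * g'⁆ = π ⁅(t : P), g⁆ * π ⁅(t : P), g'⁆
    rw [e1, map_mul, conjc _ (hmem _ t.2 g')]
  let phiR : L → P →* Subgroup.center (P ⧸ M) := fun t =>
    MonoidHom.mk' (phi t) (phi_mulR t)
  let Phi : (Fin e → L) →* Subgroup.center (P ⧸ M) :=
    MonoidHom.mk' (fun t => ∏ i, phi (t i) (hs i)) (by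
      intro t t'
      simp only [Pi.mul_apply, phi_mulL, Finset.prod_mul_distrib])
  have phi_one : ∀ g : P, phi 1 g = 1 := by
    intro g
    apply Subtype.ext
    change π ⁅((1 : L) : P), g⁆ = 1
    simp
  have hA : ∀ (t : L) (g : P), phi t g ∈ Phi.range := by
    intro t g
    have : (Subgroup.closure (Set.range hs)) ≤ Phi.range.comap (phiR t) := by
      rw [Subgroup.closure_le]
      rintro _ ⟨j, rfl⟩
      change phi t (hs j) ∈ Phi.range
      refine ⟨fun i => if i = j then t else 1, ?_⟩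
      change ∏ i, phi (if i = j then t else 1) (hs i) = phi t (hs j)
      rw [Finset.prod_eq_single j]
      · simp
      · intro b _ hb
        rw [if_neg hb, phi_one]
      · simp
    rw [hgen] at this
    exact this (Subgroup.mem_top g)
  have hz2 : ⁅L, (⊤ : Subgroup P)⁆ ≤ ((Phi.range.map (Subgroup.center (P ⧸ M)).subtype).comap π) := by
    rw [Subgroup.commutator_le]
    intro t ht g _
    exact ⟨phi ⟨t, ht⟩ g, hA ⟨t, ht⟩ g, rfl⟩
  obtain ⟨c, ⟨t, rfl⟩, hc⟩ := hz2 hz
  refine ⟨fun i => t i, ?_⟩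
  rw [← QuotientGroup.eq_one_iff]
  change π _ = 1
  rw [map_mul, map_inv, inv_mul_eq_one, map_mul, ← hc]
  have e1 : ∀ i, π ⁅y i * t i, hs i⁆ = (phi (t i) (hs i) : P ⧸ M) * π ⁅y i, hs i⁆ := by
    intro i
    have e2 : ⁅y i * t i, hs i⁆ = (y i * ⁅(t i : P), hs i⁆ * (y i)⁻¹) * ⁅y i, hs i⁆ := by
      simp only [commutatorElement_def]; group
    rw [e2, map_mul, conjc _ (hmem _ (t i).2 _)]
  rw [map_list_prod, List.map_ofFn, map_list_prod, List.map_ofFn]
  have e3 : (⇑π ∘ fun i => ⁅y i * t i, hs i⁆) =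
      fun i => (phi (t i) (hs i) : P ⧸ M) * (⇑π ∘ fun i => ⁅y i, hs i⁆) i := by
    funext i
    exact e1 i
  rw [e3, prod_ofFn_central]
  exact ((Subgroup.mem_center_iff.mp (∏ i, phi (t i) (hs i)).2) _).symm

theorem exists_prod_comm_of_nilpotent [Group.IsNilpotent P] {e : ℕ} (hs : Fin e → P)
    (hgen : Subgroup.closure (Set.range hs) = ⊤) (g : P) (hg : g ∈ commutator P) :
    ∃ y : Fin e → P, (List.ofFn fun i => ⁅y i, hs i⁆).prod = g := by
  have key : ∀ n : ℕ, ∃ y : Fin e → P,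
      ((List.ofFn fun i => ⁅y i, hs i⁆).prod)⁻¹ * g ∈ (⊤ : Subgroup P).lowerCentralSeries (n + 1) := by
    intro n
    induction n with
    | zero =>
      refine ⟨fun _ => 1, ?_⟩
      have : (List.ofFn fun i : Fin e => ⁅(1 : P), hs i⁆).prod = 1 := by
        simp
      rw [this, inv_one, one_mul, zero_add, Subgroup.top_lowerCentralSeries_one]
      exact hg
    | succ n ih =>
      obtain ⟨y, hy⟩ := ih
      set z := ((List.ofFn fun i => ⁅y i, hs i⁆).prod)⁻¹ * g with hz
      have hz' : z ∈ ⁅(⊤ : Subgroup P).lowerCentralSeries n, (⊤ : Subgroup P)⁆ := hy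
      obtain ⟨t, ht⟩ := nil_step (M := (⊤ : Subgroup P).lowerCentralSeries (n + 2)) (le_refl _) hs hgen hz' y
      refine ⟨fun i => y i * t i, ?_⟩
      have e : (List.ofFn fun i => ⁅y i, hs i⁆).prod * z = g := by rw [hz]; group
      rwa [e] at ht
  obtain ⟨n, hn⟩ := Subgroup.nilpotent_iff_lowerCentralSeries.mp (inferInstance : Group.IsNilpotent P)
  obtain ⟨y, hy⟩ := key n
  refine ⟨y, ?_⟩
  have h2 : (⊤ : Subgroup P).lowerCentralSeries (n + 1) ≤ (⊤ : Subgroup P).lowerCentralSeries n :=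
    (⊤ : Subgroup P).lowerCentralSeries_antitone (Nat.le_succ n)
  have h3 := h2 hy
  rw [hn, Subgroup.mem_bot, inv_mul_eq_one] at h3
  exact h3

end Nil
end Pool.Agent.Helper96.VW
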