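import Pool.Agent.Helper96.VW.Basic

/-!
Products of boundedly many values, displacement.
-/

namespace Pool.Agent.Helper96.VW

open scoped commutatorElement

section Pw

variable {G : Type*} [Group G]

/-- Products of at most `m` elements of `S`. -/
def Pw (S : Set G) (m : ℕ) : Set G :=
  {g | ∃ l : List G, l.length ≤ m ∧ (∀ x ∈ l, x ∈ S) ∧ l.prod = g}

theorem one_mem_Pw (S : Set G) (m : ℕ) : (1 : G) ∈ Pw S m :=
  ⟨[], by simp, by simp, by simp⟩

theorem Pw_mono {S : Set G} {m n : ℕ} (h : m ≤ n) : Pw S m ⊆ Pw S n := by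
  rintro g ⟨l, hl, h1, h2⟩
  exact ⟨l, hl.trans h, h1, h2⟩

theorem mem_Pw_one {S : Set G} {g : G} (h : g ∈ S) : g ∈ Pw S 1 :=
  ⟨[g], by simp, by simpa using h, by simp⟩

theorem Pw_mul {S : Set G} {m n : ℕ} {g h : G} (hg : g ∈ Pw S m) (hh : h ∈ Pw S n) :
    g * h ∈ Pw S (m + n) := by
  obtain ⟨l, hl, h1, h2⟩ := hg
  obtain ⟨l', hl', h1', h2'⟩ := hh
  refine ⟨l ++ l', by simp; omega, ?_, by simp [h2, h2']⟩
  intro x hx
  rcases List.mem_append.mp hx with h | h
  · exact h1 x h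
  · exact h1' x h

theorem Pw_conj {S : Set G} (hS : ∀ x ∈ S, ∀ t : G, t * x * t⁻¹ ∈ S) {m : ℕ} {g : G}
    (hg : g ∈ Pw S m) (t : G) : t * g * t⁻¹ ∈ Pw S m := by
  obtain ⟨l, hl, h1, h2⟩ := hg
  refine ⟨l.map (fun x => t * x * t⁻¹), by simpa using hl, ?_, ?_⟩
  · intro x hx
    obtain ⟨y, hy, rfl⟩ := List.mem_map.mp hx
    exact hS y (h1 y hy) t
  · have : (fun x => t * x * t⁻¹) = (MulAut.conj t).toMonoidHom := by
      ext x; simp [MulAut.conj_apply]
    rw [this, ← map_list_prod, h2]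
    simp [MulAut.conj_apply]

theorem Pw_inv {S : Set G} (hS : ∀ x ∈ S, x⁻¹ ∈ S) {m : ℕ} {g : G}
    (hg : g ∈ Pw S m) : g⁻¹ ∈ Pw S m := by
  obtain ⟨l, hl, h1, h2⟩ := hg
  refine ⟨(l.map (fun x => x⁻¹)).reverse, by simpa using hl, ?_, ?_⟩
  · intro x hx
    rw [List.mem_reverse] at hx
    obtain ⟨y, hy, rfl⟩ := List.mem_map.mp hx
    exact hS y (h1 y hy)
  · rw [← h2, List.prod_inv_reverse]

theorem exists_Pw_of_mem_closure {S : Set G} (hS : ∀ x ∈ S, x⁻¹ ∈ S) {g : G}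
    (hg : g ∈ Subgroup.closure S) : ∃ m, g ∈ Pw S m := by
  induction hg using Subgroup.closure_induction with
  | mem x hx => exact ⟨1, mem_Pw_one hx⟩
  | one => exact ⟨0, one_mem_Pw S 0⟩
  | mul x y _ _ hx hy =>
    obtain ⟨m, hm⟩ := hx
    obtain ⟨n, hn⟩ := hy
    exact ⟨m + n, Pw_mul hm hn⟩
  | inv x _ hx =>
    obtain ⟨m, hm⟩ := hx
    exact ⟨m, Pw_inv hS hm⟩

theorem Pw_subset_closure {S : Set G} {m : ℕ} {g : G} (hg : g ∈ Pw S m) :
    g ∈ Subgroup.closure S := by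
  obtain ⟨l, _, h1, h2⟩ := hg
  rw [← h2]
  exact Subgroup.list_prod_mem _ (fun x hx => Subgroup.subset_closure (h1 x hx))

/-- Products of exactly `c` commutators of elements of `K`. -/
def CL (K : Subgroup G) : ℕ → G → Prop
  | 0, k => k = 1
  | c + 1, k => ∃ a ∈ K, ∃ b ∈ K, ∃ k', CL K c k' ∧ k = ⁅a, b⁆ * k'

theorem CL_one (K : Subgroup G) (c : ℕ) : CL K c 1 := by
  induction c with
  | zero => rfl
  | succ c ih => exact ⟨1, K.one_mem, 1, K.one_mem, 1, ih, by simp⟩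

theorem CL_mul {K : Subgroup G} {c d : ℕ} {k l : G} (hk : CL K c k) (hl : CL K d l) :
    CL K (c + d) (k * l) := by
  induction c generalizing k with
  | zero =>
    have : k = 1 := hk
    subst this
    simpa using hl
  | succ c ih =>
    obtain ⟨a, ha, b, hb, k', hk', rfl⟩ := hk
    rw [show c + 1 + d = (c + d) + 1 by omega]
    exact ⟨a, ha, b, hb, k' * l, ih hk', by rw [mul_assoc]⟩

theorem CL_mono {K : Subgroup G} {c d : ℕ} (h : c ≤ d) {k : G} (hk : CL K c k) : CL K d k := by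
  obtain ⟨e, rfl⟩ := Nat.exists_eq_add_of_le h
  simpa using CL_mul hk (CL_one K e)

theorem CL_inv {K : Subgroup G} {c : ℕ} {k : G} (hk : CL K c k) : CL K c k⁻¹ := by
  induction c generalizing k with
  | zero =>
    have : k = 1 := hk
    subst this
    simpa using CL_one K 0
  | succ c ih =>
    obtain ⟨a, ha, b, hb, k', hk', rfl⟩ := hk
    rw [mul_inv_rev, commutatorElement_inv]
    refine CL_mul (ih hk') (d := 1) ?_
    exact ⟨b, hb, a, ha, 1, rfl, by simp⟩

theorem exists_CL {K : Subgroup G} {k : G} (hk : k ∈ ⁅K, K⁆) : ∃ c, CL K c k := by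
  rw [Subgroup.commutator_def] at hk
  induction hk using Subgroup.closure_induction with
  | mem x hx =>
    obtain ⟨a, ha, b, hb, rfl⟩ := hx
    exact ⟨1, a, ha, b, hb, 1, rfl, by simp⟩
  | one => exact ⟨0, rfl⟩
  | mul x y _ _ hx hy =>
    obtain ⟨m, hm⟩ := hx
    obtain ⟨n, hn⟩ := hy
    exact ⟨m + n, CL_mul hm hn⟩
  | inv x _ hx =>
    obtain ⟨m, hm⟩ := hx
    exact ⟨m, CL_inv hm⟩

/-- Finitely many elements of `⁅K, K⁆` have bounded commutator length. -/
theorem exists_CL_uniform {K : Subgroup G} {F : Set G} (hF : F.Finite) :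
    ∃ c, ∀ k ∈ F, k ∈ ⁅K, K⁆ → CL K c k := by
  classical
  induction F, hF using Set.Finite.induction_on with
  | empty => exact ⟨0, by simp⟩
  | @insert a s _ _ ih =>
    obtain ⟨c, hc⟩ := ih
    by_cases ha : a ∈ ⁅K, K⁆
    · obtain ⟨d, hd⟩ := exists_CL ha
      refine ⟨max c d, ?_⟩
      intro k hk hkK
      rcases Set.mem_insert_iff.mp hk with rfl | h
      · exact CL_mono (le_max_right _ _) hd
      · exact CL_mono (le_max_left _ _) (hc k h hkK)
    · refine ⟨c, ?_⟩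
      intro k hk hkK
      rcases Set.mem_insert_iff.mp hk with rfl | h
      · exact absurd hkK ha
      · exact hc k h hkK

end Pw

namespace WreathRec

variable {X G : Type*} [Group G] {R : WreathRec X G}

/-- `g` acts trivially on level `n` and has trivial sections outside `s`. -/
def SuppOn (R : WreathRec X G) (n : ℕ) (s : Set (List X)) (g : G) : Prop :=
  ∀ w : List X, w.length = n → R.actW g w = w ∧ (w ∉ s → R.secW g w = 1)

theorem SuppOn.commute (hF : R.Faithful) {n : ℕ} {s t : Set (List X)} (hst : Disjoint s t)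
    {g h : G} (hg : R.SuppOn n s g) (hh : R.SuppOn n t h) : Commute g h := by
  apply hF.ext (n := n)
  intro w hw
  have h1 := hg w hw
  have h2 := hh w hw
  constructor
  · rw [actW_mul, actW_mul, h1.1, h2.1, h1.1]
  · rw [secW_mul, secW_mul, h1.1, h2.1]
    by_cases hwu : w ∈ s
    · have : w ∉ t := fun hc => Set.disjoint_left.mp hst hwu hc
      rw [h2.2 this, mul_one, one_mul]
    · rw [h1.2 hwu, mul_one, one_mul]

theorem Supp.suppOn {v : List X} {g : G} (h : R.Supp v g) : R.SuppOn v.length {v} g := by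
  intro w hw
  exact ⟨(h w hw).1, fun hne => (h w hw).2 (by simpa using hne)⟩

theorem displacement (hF : R.Faithful) {S : Set G} (hSc : ∀ x ∈ S, ∀ t : G, t * x * t⁻¹ ∈ S)
    (hSi : ∀ x ∈ S, x⁻¹ ∈ S) {h : G} (hh : h ∈ S) {v : List X} (hv : R.actW h v ≠ v)
    {p r : G} (hp : R.Supp v p) (hr : R.Supp v r) : ⁅p, r⁆ ∈ Pw S 4 := by
  have hs : R.Supp (R.actW h v) (h * p * h⁻¹) := hp.conj h
  have hc : Commute (h * p * h⁻¹) r := Supp.commute hF (by simp) hv hs hr
  have hc' : Commute (h * p⁻¹ * h⁻¹) r := by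
    have := hc.inv_left
    have e : (h * p * h⁻¹)⁻¹ = h * p⁻¹ * h⁻¹ := by group
    rwa [e] at this
  have hq : ⁅p, h⁆ ∈ Pw S 2 := by
    rw [commutatorElement_def]
    exact Pw_mul (m := 1) (n := 1) (mem_Pw_one (hSc h hh p)) (mem_Pw_one (hSi h hh))
  have h4 : ⁅p, h⁆ * (r * ⁅p, h⁆⁻¹ * r⁻¹) ∈ Pw S 4 :=
    Pw_mul (m := 2) (n := 2) hq (Pw_conj hSc (Pw_inv hSi hq) r)
  have e : ⁅p, r⁆ = ⁅p, h⁆ * (r * ⁅p, h⁆⁻¹ * r⁻¹) := by
    have e1 : ⁅p, h⁆ = p * (h * p⁻¹ * h⁻¹) := by rw [commutatorElement_def]; group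
    rw [e1]
    set s := h * p⁻¹ * h⁻¹ with hsdef
    have e2 : s * r * s⁻¹ = r := by rw [hc'.eq]; group
    calc ⁅p, r⁆ = p * r * p⁻¹ * r⁻¹ := commutatorElement_def p r
      _ = p * (s * r * s⁻¹) * p⁻¹ * r⁻¹ := by rw [e2]
      _ = p * s * (r * (p * s)⁻¹ * r⁻¹) := by group
  rw [e]; exact h4

theorem commutator_levelSub (hF : R.Faithful) (hT : R.LevelTransitive) [Finite X]
    {K : Subgroup G} (hK : R.RegularBranch K) {S : Set G}
    (hSc : ∀ x ∈ S, ∀ t : G, t * x * t⁻¹ ∈ S)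
    (hSi : ∀ x ∈ S, x⁻¹ ∈ S) {h : G} (hh : h ∈ S) {v : List X} (hv : R.actW h v ≠ v) :
    ∃ M : ℕ, ∀ P ∈ R.levelSub v.length K, ∀ Q ∈ R.levelSub v.length K, ⁅P, Q⁆ ∈ Pw S M := by
  classical
  have key : ∀ s : Finset (List X), (∀ w ∈ s, w.length = v.length) →
      ∀ P Q : G, P ∈ R.levelSub v.length K → Q ∈ R.levelSub v.length K →
        R.SuppOn v.length s P → R.SuppOn v.length s Q → ⁅P, Q⁆ ∈ Pw S (4 * s.card) := by
    intro s
    induction s using Finset.induction_on with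
    | empty =>
      intro _ P Q hP hQ hPs hQs
      have : P = 1 := hF.eq_one (n := v.length) (fun w hw => ⟨(hPs w hw).1, (hPs w hw).2 (by simp)⟩)
      subst this
      simpa using one_mem_Pw S 0
    | insert u s hu ih =>
      intro hs P Q hP hQ hPs hQs
      have hun : u.length = v.length := hs u (Finset.mem_insert_self u s)
      have hs' : ∀ w ∈ s, w.length = v.length := fun w hw => hs w (Finset.mem_insert_of_mem hw)
      have split : ∀ P : G, P ∈ R.levelSub v.length K → R.SuppOn v.length ↑(insert u s) P →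
          ∃ P' Pu : G, P = P' * Pu ∧ P' ∈ R.levelSub v.length K ∧
            R.SuppOn v.length s P' ∧ R.Supp u Pu := by
        intro P hP hPs
        obtain ⟨Pu, hPuK, hPuS, hPuk⟩ := hK.exists_single u (R.secW P u) (hP u hun).2
        have hPu : Pu ∈ R.levelSub v.length K := by
          intro w hw
          have h1 := hPuS w (hw.trans hun.symm)
          refine ⟨h1.1, ?_⟩
          by_cases hwu : w = u
          · subst hwu; rw [hPuk]; exact (hP w hw).2
          · rw [h1.2 hwu]; exact K.one_mem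
        refine ⟨P * Pu⁻¹, Pu, by group, ?_, ?_, hPuS⟩
        · exact (R.levelSub v.length K).mul_mem hP ((R.levelSub v.length K).inv_mem hPu)
        · intro w hw
          have hP1 := hPs w hw
          have hPu1 := hPuS w (hw.trans hun.symm)
          have hinv : R.actW Pu⁻¹ w = w :=
            (((R.levelSub v.length K).inv_mem hPu) w hw).1
          refine ⟨by rw [actW_mul, hinv, hP1.1], ?_⟩
          intro hws
          rw [secW_mul, hinv, secW_inv, hinv]
          by_cases hwu : w = u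
          · subst hwu; rw [hPuk]; simp
          · rw [hPu1.2 hwu, hP1.2 (by simpa [hwu] using hws)]; simp
      obtain ⟨P', Pu, rfl, hP', hP's, hPuS⟩ := split P hP hPs
      obtain ⟨Q', Qu, rfl, hQ', hQ's, hQuS⟩ := split Q hQ hQs
      have hdis : Disjoint (↑s : Set (List X)) {u} := by
        rw [Set.disjoint_singleton_right]
        simpa using hu
      have hPu' : R.SuppOn v.length {u} Pu := by rw [← hun]; exact hPuS.suppOn
      have hQu' : R.SuppOn v.length {u} Qu := by rw [← hun]; exact hQuS.suppOn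
      have c1 : Commute P' Qu := SuppOn.commute hF hdis hP's hQu'
      have c2 : Commute P' Pu := SuppOn.commute hF hdis hP's hPu'
      have c3 : Commute Q' Pu := SuppOn.commute hF hdis hQ's hPu'
      have c4 : Commute Q' Qu := SuppOn.commute hF hdis hQ's hQu'
      have e : ⁅P' * Pu, Q' * Qu⁆ = ⁅P', Q'⁆ * ⁅Pu, Qu⁆ := by
        simp only [commutatorElement_def]
        have d1 : Pu * Q' = Q' * Pu := c3.eq.symm
        have d2 : Qu * P'⁻¹ = P'⁻¹ * Qu := (c1.inv_left.eq).symm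
        have d3 : Pu * P'⁻¹ = P'⁻¹ * Pu := (c2.inv_left.eq).symm
        have d4 : Pu⁻¹ * P'⁻¹ = P'⁻¹ * Pu⁻¹ := (c2.inv_left.inv_right.eq).symm
        have d5 : Qu⁻¹ * Q'⁻¹ = Q'⁻¹ * Qu⁻¹ := (c4.inv_left.inv_right.eq).symm
        have d6 : (Pu * Qu * Pu⁻¹) * Q'⁻¹ = Q'⁻¹ * (Pu * Qu * Pu⁻¹) := by
          have : Commute (Pu * Qu * Pu⁻¹) Q'⁻¹ :=
            ((c3.symm.mul_left c4.symm).mul_left c3.symm.inv_left).inv_right
          exact this.eq
        calc P' * Pu * (Q' * Qu) * (P' * Pu)⁻¹ * (Q' * Qu)⁻¹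
            = P' * (Pu * Q') * Qu * (Pu⁻¹ * P'⁻¹) * (Qu⁻¹ * Q'⁻¹) := by group
          _ = P' * (Q' * Pu) * Qu * (P'⁻¹ * Pu⁻¹) * (Q'⁻¹ * Qu⁻¹) := by rw [d1, d4, d5]
          _ = P' * Q' * Pu * (Qu * P'⁻¹) * Pu⁻¹ * Q'⁻¹ * Qu⁻¹ := by group
          _ = P' * Q' * Pu * (P'⁻¹ * Qu) * Pu⁻¹ * Q'⁻¹ * Qu⁻¹ := by rw [d2]
          _ = P' * Q' * (Pu * P'⁻¹) * Qu * Pu⁻¹ * Q'⁻¹ * Qu⁻¹ := by group
          _ = P' * Q' * (P'⁻¹ * Pu) * Qu * Pu⁻¹ * Q'⁻¹ * Qu⁻¹ := by rw [d3]
          _ = P' * Q' * P'⁻¹ * ((Pu * Qu * Pu⁻¹) * Q'⁻¹) * Qu⁻¹ := by group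
          _ = P' * Q' * P'⁻¹ * (Q'⁻¹ * (Pu * Qu * Pu⁻¹)) * Qu⁻¹ := by rw [d6]
          _ = P' * Q' * P'⁻¹ * Q'⁻¹ * (Pu * Qu * Pu⁻¹ * Qu⁻¹) := by group
      rw [e, Finset.card_insert_of_notMem hu, show 4 * (s.card + 1) = 4 * s.card + 4 by ring]
      apply Pw_mul
      · exact ih hs' P' Q' hP' hQ' hP's hQ's
      · obtain ⟨t, ht⟩ := hT v u hun.symm
        have hvt : R.actW t⁻¹ u = v := by rw [← ht, actW_inv_actW]
        have s1 : R.Supp v (t⁻¹ * Pu * t⁻¹⁻¹) := by rw [← hvt]; exact hPuS.conj t⁻¹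
        have s2 : R.Supp v (t⁻¹ * Qu * t⁻¹⁻¹) := by rw [← hvt]; exact hQuS.conj t⁻¹
        have h4 := Pw_conj hSc (displacement hF hSc hSi hh hv s1 s2) t
        have e : t * ⁅t⁻¹ * Pu * t⁻¹⁻¹, t⁻¹ * Qu * t⁻¹⁻¹⁆ * t⁻¹ = ⁅Pu, Qu⁆ := by
          simp only [commutatorElement_def]; group
        rwa [e] at h4
  have hfin : {w : List X | w.length = v.length}.Finite := List.finite_length_eq X v.length
  refine ⟨4 * hfin.toFinset.card, ?_⟩
  intro P hP Q hQ
  refine key hfin.toFinset (fun w hw => by simpa using hw) P Q hP hQ ?_ ?_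
  · intro w hw
    exact ⟨(hP w hw).1, fun hc => absurd (by simpa using hw) hc⟩
  · intro w hw
    exact ⟨(hQ w hw).1, fun hc => absurd (by simpa using hw) hc⟩

/-- If all level `n` sections of `z` are products of `c` commutators of elements of `K`, then
`z` is a product of `c` commutators of elements of `levelSub n K`. -/
theorem mem_Pw_of_sections (hF : R.Faithful) [Finite X] {K : Subgroup G}
    (hK : R.RegularBranch K) {S : Set G} {n M : ℕ}
    (hM : ∀ P ∈ R.levelSub n K, ∀ Q ∈ R.levelSub n K, ⁅P, Q⁆ ∈ Pw S M) (c : ℕ) :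
    ∀ z : G, (∀ w : List X, w.length = n → R.actW z w = w ∧ CL K c (R.secW z w)) →
      z ∈ Pw S (c * M) := by
  classical
  induction c with
  | zero =>
    intro z hz
    have : z = 1 := hF.eq_one (n := n) (fun w hw => ⟨(hz w hw).1, (hz w hw).2⟩)
    subst this
    exact one_mem_Pw S _
  | succ c ih =>
    intro z hz
    have hz' : ∀ w : List X, ∃ q : G × G × G, w.length = n → q.1 ∈ K ∧ q.2.1 ∈ K ∧
        CL K c q.2.2 ∧ R.secW z w = ⁅q.1, q.2.1⁆ * q.2.2 := by
      intro w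
      by_cases hw : w.length = n
      · obtain ⟨a, ha, b, hb, k', hk', hk⟩ := (hz w hw).2
        exact ⟨(a, b, k'), fun _ => ⟨ha, hb, hk', hk⟩⟩
      · exact ⟨(1, 1, 1), fun h => absurd h hw⟩
    choose q hq using hz'
    obtain ⟨P, hPK, hP⟩ := hK.exists_family n (fun w => (q w).1) (fun w hw => (hq w hw).1)
    obtain ⟨Q, hQK, hQ⟩ := hK.exists_family n (fun w => (q w).2.1) (fun w hw => (hq w hw).2.1)
    have hPm : P ∈ R.levelSub n K := fun w hw => ⟨(hP w hw).1, by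
      rw [(hP w hw).2]; exact (hq w hw).1⟩
    have hQm : Q ∈ R.levelSub n K := fun w hw => ⟨(hQ w hw).1, by
      rw [(hQ w hw).2]; exact (hq w hw).2.1⟩
    have hPi : ∀ w : List X, w.length = n → R.actW P⁻¹ w = w := fun w hw =>
      ((R.levelSub n K).inv_mem hPm w hw).1
    have hQi : ∀ w : List X, w.length = n → R.actW Q⁻¹ w = w := fun w hw =>
      ((R.levelSub n K).inv_mem hQm w hw).1
    have hcomm : ∀ w : List X, w.length = n →
        R.actW ⁅P, Q⁆ w = w ∧ R.secW ⁅P, Q⁆ w = ⁅(q w).1, (q w).2.1⁆ := by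
      intro w hw
      rw [commutatorElement_def]
      constructor
      · rw [actW_mul, actW_mul, actW_mul, hQi w hw, hPi w hw, (hQ w hw).1, (hP w hw).1]
      · rw [secW_mul, secW_mul, secW_mul, hQi w hw, hPi w hw, (hQ w hw).1, secW_inv, secW_inv,
          hQi w hw, hPi w hw, (hP w hw).2, (hQ w hw).2, commutatorElement_def]
    have hz1 : (⁅P, Q⁆)⁻¹ * z ∈ Pw S (c * M) := by
      apply ih
      intro w hw
      have h1 := hcomm w hw
      have h2 : R.actW (⁅P, Q⁆)⁻¹ w = w := by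
        have := congrArg (R.actW (⁅P, Q⁆)⁻¹) h1.1
        rw [actW_inv_actW] at this
        exact this.symm
      refine ⟨by rw [actW_mul, (hz w hw).1, h2], ?_⟩
      rw [secW_mul, (hz w hw).1, secW_inv, h2, h1.2, (hq w hw).2.2.2, inv_mul_cancel_left]
      exact (hq w hw).2.2.1
    have e : z = ⁅P, Q⁆ * ((⁅P, Q⁆)⁻¹ * z) := by group
    rw [e, show (c + 1) * M = M + c * M by ring]
    exact Pw_mul (hM P hPm Q hQm) hz1

end WreathRec
end Pool.Agent.Helper96.VW
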